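import Pool.Agent.Work.MP_f4e338_TD.Interface

/-! # Block BAS: basic facts -/

set_option autoImplicit false
set_option linter.unusedSectionVars false

namespace Pool.TD

open Finset

section

variable {V : Type} [Fintype V] [DecidableEq V] {W M : Finset V} {e : V → Finset V} {T : Finset V}

theorem BAS_M2 {x : V} : x ∈ M2 M e T ↔ x ∈ M ∧ Disjoint (e x) T := by
  unfold M2
  rw [Finset.mem_filter]

theorem BAS_LL {x : V} : x ∈ LL M e T ↔ x ∈ M2 M e T ∧ ∀ v ∈ e x, d2 M e T v = 1 := by
  unfold LL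
  rw [Finset.mem_filter]

/-- two edges with two common vertices are equal -/
theorem BAS_inj (h : HY W M e) {x y a b : V} (hx : x ∈ M) (hy : y ∈ M) (hab : a ≠ b)
    (hax : a ∈ e x) (hbx : b ∈ e x) (hay : a ∈ e y) (hby : b ∈ e y) : x = y := by
  by_contra hne
  have h1 := h.2.1 x hx y hy hne
  rw [Finset.card_le_one] at h1
  exact hab (h1 a (Finset.mem_inter.2 ⟨hax, hay⟩) b (Finset.mem_inter.2 ⟨hbx, hby⟩))

theorem BAS_one (h : HY W M e) : ∀ x ∈ M2 M e T, e x ⊆ W \ T := by
  intro x hx v hv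
  rw [BAS_M2] at hx
  rw [Finset.mem_sdiff]
  exact ⟨(h.1 x hx.1).1 hv, fun hvT => (Finset.disjoint_left.1 hx.2 hv) hvT⟩

theorem BAS_two (hT : MIS W M e T) : ∀ x ∈ M, x ∉ M2 M e T →
    ∃ t ∈ T, t ∈ e x ∧ ∀ s ∈ T, s ∈ e x → s = t := by
  intro x hx hx2
  have h1 : ¬ Disjoint (e x) T := fun hd => hx2 (BAS_M2.2 ⟨hx, hd⟩)
  obtain ⟨t, htx, htT⟩ := Finset.not_disjoint_iff.1 h1
  refine ⟨t, htT, htx, fun s hs hsx => ?_⟩
  by_contra hne
  exact hT.2.2.1 s hs t htT hne ⟨x, hx, hsx, htx⟩

theorem BAS_three (h : HY W M e) (hT : MIS W M e T) : ∀ v ∈ W \ T,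
    (T.filter (fun t => Co M e t v)).card + d2 M e T v = dg M e v := by
  classical
  intro v hv
  have hvT := (Finset.mem_sdiff.1 hv).2
  have h1 : d2 M e T v = ((M.filter (fun x => v ∈ e x)).filter (fun x => x ∈ M2 M e T)).card := by
    unfold d2 dg
    congr 1
    ext x
    simp only [Finset.mem_filter, BAS_M2]
    tauto
  have h2 : (T.filter (fun t => Co M e t v)).card =
      ((M.filter (fun x => v ∈ e x)).filter (fun x => ¬ x ∈ M2 M e T)).card := by
    symm
    refine Finset.card_bij (fun x hx => (BAS_two hT x (by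
        simp only [Finset.mem_filter] at hx; exact hx.1.1) (by
        simp only [Finset.mem_filter] at hx; exact hx.2)).choose) ?_ ?_ ?_
    · intro x hx
      have h3 := (BAS_two hT x (by
        simp only [Finset.mem_filter] at hx; exact hx.1.1) (by
        simp only [Finset.mem_filter] at hx; exact hx.2)).choose_spec
      simp only [Finset.mem_filter] at hx
      rw [Finset.mem_filter]
      exact ⟨h3.1, x, hx.1.1, h3.2.1, hx.1.2⟩
    · intro x hx y hy hxy
      have h3 := (BAS_two hT x (by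
        simp only [Finset.mem_filter] at hx; exact hx.1.1) (by
        simp only [Finset.mem_filter] at hx; exact hx.2)).choose_spec
      have h4 := (BAS_two hT y (by
        simp only [Finset.mem_filter] at hy; exact hy.1.1) (by
        simp only [Finset.mem_filter] at hy; exact hy.2)).choose_spec
      rw [hxy] at h3
      simp only [Finset.mem_filter] at hx hy
      refine BAS_inj h hx.1.1 hy.1.1 ?_ h3.2.1 hx.1.2 h4.2.1 hy.1.2
      intro h5
      apply hvT
      rw [← h5]
      exact h3.1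
    · intro t ht
      rw [Finset.mem_filter] at ht
      obtain ⟨htT, x, hx, htx, hvx⟩ := ht
      have hx2 : ¬ x ∈ M2 M e T := fun hm =>
        Finset.disjoint_left.1 (BAS_M2.1 hm).2 htx htT
      have hxm : x ∈ (M.filter (fun x => v ∈ e x)).filter (fun x => ¬ x ∈ M2 M e T) := by
        simp only [Finset.mem_filter]
        exact ⟨⟨hx, hvx⟩, hx2⟩
      exact ⟨x, hxm, ((BAS_two hT x hx hx2).choose_spec.2.2 t htT htx).symm⟩
  rw [h1, h2, add_comm, Finset.card_filter_add_card_filter_not]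
  rfl

theorem BAS_four (h : HY W M e) (hT : MIS W M e T) : ∀ v ∈ W \ T, d2 M e T v ≤ 2 := by
  classical
  intro v hv
  have h1 := BAS_three h hT v hv
  obtain ⟨hvW, hvT⟩ := Finset.mem_sdiff.1 hv
  have h2 := h.2.2 v hvW
  by_cases h3 : dg M e v = 3
  · obtain ⟨t, ht, hc⟩ := hT.2.2.2 v hvW h3 hvT
    have h4 : 0 < (T.filter (fun t => Co M e t v)).card :=
      Finset.card_pos.2 ⟨t, Finset.mem_filter.2 ⟨ht, hc⟩⟩
    omega
  · omega

theorem BAS_five (h : HY W M e) (hT : MIS W M e T) : ∀ t ∈ T,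
    nb M e t ⊆ W \ T ∧ (nb M e t).card = 6 := by
  classical
  intro t ht
  constructor
  · intro v hv
    unfold nb at hv
    simp only [Finset.mem_filter, Finset.mem_univ, true_and] at hv
    obtain ⟨hne, x, hx, htx, hvx⟩ := hv
    rw [Finset.mem_sdiff]
    exact ⟨(h.1 x hx).1 hvx, fun hvT => hT.2.2.1 t ht v hvT (Ne.symm hne) ⟨x, hx, htx, hvx⟩⟩
  · have h1 : nb M e t = (M.filter (fun x => t ∈ e x)).biUnion (fun x => (e x).erase t) := by
      ext v
      unfold nb Co
      simp only [Finset.mem_filter, Finset.mem_univ, true_and, Finset.mem_biUnion,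
        Finset.mem_erase]
      constructor
      · rintro ⟨hne, x, hx, htx, hvx⟩
        exact ⟨x, ⟨hx, htx⟩, hne, hvx⟩
      · rintro ⟨x, ⟨hx, htx⟩, hne, hvx⟩
        exact ⟨hne, x, hx, htx, hvx⟩
    rw [h1, Finset.card_biUnion]
    · have h2 : ∀ x ∈ M.filter (fun x => t ∈ e x), ((e x).erase t).card = 2 := by
        intro x hx
        rw [Finset.mem_filter] at hx
        rw [Finset.card_erase_of_mem hx.2, (h.1 x hx.1).2]
      rw [Finset.sum_congr rfl h2, Finset.sum_const]
      have h3 : (M.filter (fun x => t ∈ e x)).card = 3 := hT.2.1 t ht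
      rw [h3]
      rfl
    · intro x hx y hy hxy
      rw [Finset.mem_coe, Finset.mem_filter] at hx hy
      show Disjoint ((e x).erase t) ((e y).erase t)
      rw [Finset.disjoint_left]
      intro v hv hv'
      rw [Finset.mem_erase] at hv hv'
      exact hxy (BAS_inj h hx.1 hy.1 hv.1 hv.2 hx.2 hv'.2 hy.2)

theorem BAS_six : ∀ x ∈ LL M e T, ∀ y ∈ M2 M e T, x ≠ y → Disjoint (e x) (e y) := by
  intro x hx y hy hxy
  rw [BAS_LL] at hx
  rw [Finset.disjoint_left]
  intro v hvx hvy
  have h1 := hx.2 v hvx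
  unfold d2 dg at h1
  have h2 := Finset.card_le_one.1 h1.le x (Finset.mem_filter.2 ⟨hx.1, hvx⟩) y
    (Finset.mem_filter.2 ⟨hy, hvy⟩)
  exact hxy h2

end

theorem p_BAS : Stmt_BAS := by
  intro V _ _ W M e T h hT
  exact ⟨BAS_one h, BAS_two hT, BAS_three h hT, BAS_four h hT, BAS_five h hT, BAS_six⟩

end Pool.TD
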