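import Pool.Agent.Work.MP_f4e338_TD.Interface

set_option autoImplicit false

/-! Block BB: the number of disjoint blocks. -/

namespace Pool.TD

open Finset

/-- double counting -/
theorem BB_count {V : Type} [DecidableEq V] (A B : Finset V) (f g : V → Finset V)
    (h : ∀ a ∈ A, ∀ b ∈ B, b ∈ f a ↔ a ∈ g b) :
    ∑ a ∈ A, (B.filter (fun b => b ∈ f a)).card = ∑ b ∈ B, (A.filter (fun a => a ∈ g b)).card := by
  simp only [card_filter]
  rw [sum_comm]
  refine sum_congr rfl fun b hb => sum_congr rfl fun a ha => ?_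
  by_cases hab : b ∈ f a
  · rw [if_pos hab, if_pos ((h a ha b hb).1 hab)]
  · rw [if_neg hab, if_neg (fun h' => hab ((h a ha b hb).2 h'))]

theorem p_BB : Stmt_BB := by
  classical
  intro V _ _ N T1 e BF hNb hT hW he hHY hfull hcl hBF hdis
  obtain ⟨hs, -, h3N, -⟩ := hNb
  obtain ⟨hHY1, -, -⟩ := hHY
  set R := Hit N T1 with hR
  set W := univ \ T1 with hWd
  set M := univ \ R with hMd
  have hNW : ∀ x ∈ M, N x ⊆ W := by
    intro x hx y hy
    rw [hWd, mem_sdiff]
    refine ⟨mem_univ _, fun hyT => ?_⟩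
    rw [hMd, mem_sdiff] at hx
    apply hx.2
    rw [hR, Hit, mem_filter]
    exact ⟨mem_univ _, y, mem_inter.2 ⟨hy, hyT⟩⟩
  -- first double counting
  have hdc : ∑ v ∈ W, (N v \ R).card = ∑ x ∈ M, (N x).card := by
    have h1 := BB_count W M N N (fun a _ b _ => hs b a)
    have h2 : ∀ v ∈ W, (M.filter (fun b => b ∈ N v)).card = (N v \ R).card := by
      intro v _
      congr 1
      ext x
      rw [mem_filter, hMd, mem_sdiff, mem_sdiff]
      constructor
      · rintro ⟨⟨-, h⟩, h'⟩
        exact ⟨h', h⟩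
      · rintro ⟨h, h'⟩
        exact ⟨⟨mem_univ _, h'⟩, h⟩
    have h3 : ∀ x ∈ M, (W.filter (fun a => a ∈ N x)).card = (N x).card := by
      intro x hx
      congr 1
      ext y
      rw [mem_filter]
      exact ⟨fun h => h.2, fun h => ⟨hNW x hx h, h⟩⟩
    rw [sum_congr rfl h2, sum_congr rfl h3] at h1
    exact h1
  have hA : ∑ v ∈ W, ((N v \ R).card + (3 - (N v \ R).card)) = 3 * W.card := by
    rw [sum_congr rfl (g := fun _ => 3), sum_const, smul_eq_mul, mul_comm]
    intro v hv
    have h1 : v ∉ T1 := by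
      rw [hWd, mem_sdiff] at hv
      exact hv.2
    have := hW v h1
    omega
  have hB : ∑ x ∈ M, (N x).card = 3 * M.card + ∑ x ∈ M, ((N x).card - 3) := by
    have h1 : ∑ x ∈ M, (N x).card = ∑ x ∈ M, (3 + ((N x).card - 3)) := by
      refine sum_congr rfl fun x _ => ?_
      have := h3N x
      omega
    rw [h1, sum_add_distrib, sum_const, smul_eq_mul, mul_comm]
  rw [sum_add_distrib, hdc, hB] at hA
  -- blocks
  let AB : Finset V → Finset V := fun B => M.filter (fun x => (e x ∩ B).Nonempty)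
  have hABsub : ∀ B ∈ BF, ∀ x ∈ AB B, x ∈ M ∧ e x ⊆ B ∧ N x = e x ∧ (N x).card = 3 := by
    intro B hB x hx
    obtain ⟨hxM, hxB⟩ := mem_filter.1 hx
    have h1 := (hBF B hB).2.2.2 x hxM hxB
    have h2 := hfull B (hBF B hB) x hxM hxB
    exact ⟨hxM, h1, h2, by rw [h2]; exact (hHY1 x hxM).2⟩
  have hABcard : ∀ B ∈ BF, (AB B).card = 8 := by
    intro B hB
    obtain ⟨-, hB8, hB3, hBe⟩ := hBF B hB
    have h1 := BB_count B M (fun b => M.filter (fun x => b ∈ e x)) e (by
      intro a _ b hb
      rw [mem_filter]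
      exact ⟨fun h => h.2, fun h => ⟨hb, h⟩⟩)
    have h2 : ∀ b ∈ B, (M.filter (fun x => x ∈ M.filter (fun x => b ∈ e x))).card = 3 := by
      intro b hb
      have h3 := hB3 b hb
      unfold dg at h3
      rw [← h3]
      congr 1
      ext x
      simp only [mem_filter]
      tauto
    have h4 : ∑ x ∈ M, (B.filter (fun b => b ∈ e x)).card = ∑ x ∈ AB B, 3 := by
      rw [sum_filter]
      refine sum_congr rfl fun x hx => ?_
      split_ifs with h
      · have h5 := hBe x hx h
        have h6 : B.filter (fun b => b ∈ e x) = e x := by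
          ext y
          rw [mem_filter]
          exact ⟨fun h => h.2, fun h => ⟨h5 h, h⟩⟩
        rw [h6]
        exact (hHY1 x hx).2
      · rw [card_eq_zero, filter_eq_empty_iff]
        intro b hb hbe
        exact h ⟨b, mem_inter.2 ⟨hbe, hb⟩⟩
    rw [sum_congr rfl h2, h4, sum_const, sum_const, hB8, smul_eq_mul, smul_eq_mul] at h1
    omega
  have hABW : ∀ B ∈ BF, AB B ⊆ W := by
    intro B hB x hx
    obtain ⟨-, -, -, h1⟩ := hABsub B hB x hx
    rw [hWd, mem_sdiff]
    refine ⟨mem_univ _, fun hxT => ?_⟩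
    have := hT x hxT
    omega
  have claim : ∀ B ∈ BF, 1 ≤ ∑ x ∈ AB B, (3 - (N x \ R).card) +
      ∑ b ∈ B.filter (fun b => b ∈ M), ((N b).card - 3) := by
    intro B hB
    obtain ⟨-, hB8, hB3, hBe⟩ := hBF B hB
    by_cases hex : ∃ b ∈ B, b ∈ R
    · obtain ⟨b, hbB, hbR⟩ := hex
      have h3 := hB3 b hbB
      unfold dg at h3
      have h4 : (M.filter (fun x => b ∈ e x)).Nonempty := by
        rw [← card_pos]
        omega
      obtain ⟨x, hx⟩ := h4
      obtain ⟨hxM, hbx⟩ := mem_filter.1 hx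
      have hxAB : x ∈ AB B := mem_filter.2 ⟨hxM, b, mem_inter.2 ⟨hbx, hbB⟩⟩
      obtain ⟨-, -, hNe, hN3⟩ := hABsub B hB x hxAB
      have h5 : (N x \ R).card < (N x).card := by
        apply card_lt_card
        rw [Finset.ssubset_iff_of_subset sdiff_subset]
        exact ⟨b, by rw [hNe]; exact hbx, fun h => (mem_sdiff.1 h).2 hbR⟩
      have h6 : 3 - (N x \ R).card ≤ ∑ x ∈ AB B, (3 - (N x \ R).card) :=
        single_le_sum (f := fun x => 3 - (N x \ R).card) (fun _ _ => Nat.zero_le _) hxAB
      omega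
    · by_cases hall : ∀ b ∈ B, (N b).card = 3
      · exfalso
        apply hcl (AB B) B
        refine ⟨hABcard B hB, hB8, fun a ha => ?_, fun b hb => ⟨?_, hall b hb⟩⟩
        · obtain ⟨-, h1, h2, h3⟩ := hABsub B hB a ha
          exact ⟨by rw [h2]; exact h1, h3⟩
        · have h1 : M.filter (fun x => b ∈ e x) ⊆ N b := by
            intro x hx
            obtain ⟨hxM, hbx⟩ := mem_filter.1 hx
            exact (hs x b).2 (he x hxM hbx)
          have h2 : M.filter (fun x => b ∈ e x) = N b := by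
            apply eq_of_subset_of_card_le h1
            rw [hall b hb]
            have := hB3 b hb
            unfold dg at this
            exact this.ge
          rw [← h2]
          intro x hx
          obtain ⟨hxM, hbx⟩ := mem_filter.1 hx
          exact mem_filter.2 ⟨hxM, b, mem_inter.2 ⟨hbx, hb⟩⟩
      · push Not at hall
        obtain ⟨b, hb, hb3⟩ := hall
        have hbM : b ∈ M := by
          rw [hMd, mem_sdiff]
          exact ⟨mem_univ _, fun h => hex ⟨b, hb, h⟩⟩
        have h1 := h3N b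
        have h2 : (N b).card - 3 ≤ ∑ b ∈ B.filter (fun b => b ∈ M), ((N b).card - 3) :=
          single_le_sum (f := fun b => (N b).card - 3) (fun _ _ => Nat.zero_le _)
            (mem_filter.2 ⟨hb, hbM⟩)
        omega
  -- summation
  have hsum : BF.card ≤ ∑ B ∈ BF, (∑ x ∈ AB B, (3 - (N x \ R).card) +
      ∑ b ∈ B.filter (fun b => b ∈ M), ((N b).card - 3)) := by
    have := sum_le_sum claim
    rw [sum_const, smul_eq_mul, mul_one] at this
    exact this
  rw [sum_add_distrib] at hsum
  have hd1 : (BF : Set (Finset V)).PairwiseDisjoint AB := by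
    intro B hB C hC hBC
    rw [Function.onFun, Finset.disjoint_left]
    intro x hx hx'
    obtain ⟨hxM, h1, -, -⟩ := hABsub B hB x hx
    obtain ⟨-, h2, -, -⟩ := hABsub C hC x hx'
    have h3 : (e x).Nonempty := by
      rw [← card_pos, (hHY1 x hxM).2]
      norm_num
    obtain ⟨y, hy⟩ := h3
    exact Finset.disjoint_left.1 (hdis B hB C hC hBC) (h1 hy) (h2 hy)
  have hd2 : (BF : Set (Finset V)).PairwiseDisjoint (fun B => B.filter (fun b => b ∈ M)) := by
    intro B hB C hC hBC
    rw [Function.onFun]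
    exact (hdis B hB C hC hBC).mono (filter_subset _ _) (filter_subset _ _)
  have hs1 : ∑ B ∈ BF, ∑ x ∈ AB B, (3 - (N x \ R).card) ≤ ∑ v ∈ W, (3 - (N v \ R).card) := by
    rw [← sum_biUnion hd1]
    apply sum_le_sum_of_subset
    intro x hx
    rw [mem_biUnion] at hx
    obtain ⟨B, hB, hx⟩ := hx
    exact hABW B hB hx
  have hs2 : ∑ B ∈ BF, ∑ b ∈ B.filter (fun b => b ∈ M), ((N b).card - 3) ≤
      ∑ x ∈ M, ((N x).card - 3) := by
    rw [← sum_biUnion hd2]
    apply sum_le_sum_of_subset
    intro x hx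
    rw [mem_biUnion] at hx
    obtain ⟨B, -, hx⟩ := hx
    exact (mem_filter.1 hx).2
  omega

end Pool.TD
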