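import Pool.Agent.Work.MP_f4e338_TD.Interface

/-! # Block CNT: the three counting identities -/

set_option autoImplicit false

namespace Pool.TD

open Finset

theorem p_CNT (hB : Stmt_BAS) : Stmt_CNT := by
  classical
  intro V _ _ W M e T h hT
  obtain ⟨b1, b2, b3, b4, b5, b6⟩ := hB V W M e T h hT
  have hM2M : M2 M e T ⊆ M := Finset.filter_subset _ _
  have hLM : LL M e T ⊆ M2 M e T := Finset.filter_subset _ _
  have hQM : QQ M e T ⊆ M2 M e T := Finset.sdiff_subset
  have hcases : ∀ x ∈ M2 M e T, x ∈ LL M e T ∨ x ∈ QQ M e T := by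
    intro x hx
    by_cases hl : x ∈ LL M e T
    · exact Or.inl hl
    · exact Or.inr (Finset.mem_sdiff.2 ⟨hx, hl⟩)
  have hd2 : ∀ v x, x ∈ M2 M e T → v ∈ e x → 1 ≤ d2 M e T v := by
    intro v x hx hv
    unfold d2 dg
    exact Finset.card_pos.2 ⟨x, Finset.mem_filter.2 ⟨hx, hv⟩⟩
  have hLQ : ∀ x ∈ LL M e T, ∀ y ∈ QQ M e T, Disjoint (e x) (e y) := by
    intro x hx y hy
    refine b6 x hx y (hQM hy) ?_
    rintro rfl
    exact (Finset.mem_sdiff.1 hy).2 hx
  refine ⟨?_, ?_, ?_⟩
  · have h1 : (M2 M e T).card = (LL M e T).card + (QQ M e T).card := by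
      have := Finset.card_sdiff_add_card_eq_card hLM
      unfold QQ
      omega
    have h2 : M \ M2 M e T = T.biUnion (fun t => M.filter (fun x => t ∈ e x)) := by
      ext x
      simp only [Finset.mem_sdiff, Finset.mem_biUnion, Finset.mem_filter]
      constructor
      · rintro ⟨hx, hx2⟩
        obtain ⟨t, ht, htx, _⟩ := b2 x hx hx2
        exact ⟨t, ht, hx, htx⟩
      · rintro ⟨t, ht, hx, htx⟩
        refine ⟨hx, fun hx2 => ?_⟩
        exact (Finset.mem_sdiff.1 (b1 x hx2 htx)).2 ht
    have h3 : (M \ M2 M e T).card = 3 * T.card := by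
      rw [h2, Finset.card_biUnion]
      · have h4 : ∀ t ∈ T, (M.filter (fun x => t ∈ e x)).card = 3 := fun t ht => hT.2.1 t ht
        rw [Finset.sum_congr rfl h4, Finset.sum_const, smul_eq_mul, mul_comm]
      · intro t ht s hs hts
        show Disjoint (M.filter (fun x => t ∈ e x)) (M.filter (fun x => s ∈ e x))
        rw [Finset.disjoint_left]
        intro x hx hx'
        rw [Finset.mem_filter] at hx hx'
        exact hT.2.2.1 t ht s hs hts ⟨x, hx.1, hx.2, hx'.2⟩
    have h5 := Finset.card_sdiff_add_card_eq_card hM2M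
    omega
  · have h1 : (W \ T).card + T.card = W.card := Finset.card_sdiff_add_card_eq_card hT.1
    have hVL : (VL M e T).card = 3 * (LL M e T).card := by
      unfold VL
      rw [Finset.card_biUnion]
      · have h4 : ∀ x ∈ LL M e T, (e x).card = 3 := fun x hx => (h.1 x (hM2M (hLM hx))).2
        rw [Finset.sum_congr rfl h4, Finset.sum_const, smul_eq_mul, mul_comm]
      · intro x hx y hy hxy
        exact b6 x hx y (hLM hy) hxy
    have h2 : W \ T = II W M e T ∪ (VL M e T ∪ VQ M e T) := by
      ext v
      constructor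
      · intro hv
        by_cases h0 : d2 M e T v = 0
        · exact Finset.mem_union_left _ (Finset.mem_filter.2 ⟨hv, h0⟩)
        · refine Finset.mem_union_right _ ?_
          have h3 : 0 < ((M2 M e T).filter (fun x => v ∈ e x)).card := Nat.pos_of_ne_zero h0
          obtain ⟨x, hx⟩ := Finset.card_pos.1 h3
          rw [Finset.mem_filter] at hx
          rcases hcases x hx.1 with hl | hq
          · exact Finset.mem_union_left _ (Finset.mem_biUnion.2 ⟨x, hl, hx.2⟩)
          · exact Finset.mem_union_right _ (Finset.mem_biUnion.2 ⟨x, hq, hx.2⟩)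
      · intro hv
        rw [Finset.mem_union, Finset.mem_union] at hv
        rcases hv with hv | hv | hv
        · exact (Finset.mem_filter.1 hv).1
        · obtain ⟨x, hx, hvx⟩ := Finset.mem_biUnion.1 hv
          exact b1 x (hLM hx) hvx
        · obtain ⟨x, hx, hvx⟩ := Finset.mem_biUnion.1 hv
          exact b1 x (hQM hx) hvx
    have h3 : Disjoint (VL M e T) (VQ M e T) := by
      rw [Finset.disjoint_left]
      intro v hv hv'
      obtain ⟨x, hx, hvx⟩ := Finset.mem_biUnion.1 hv
      obtain ⟨y, hy, hvy⟩ := Finset.mem_biUnion.1 hv'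
      exact Finset.disjoint_left.1 (hLQ x hx y hy) hvx hvy
    have h4 : Disjoint (II W M e T) (VL M e T ∪ VQ M e T) := by
      rw [Finset.disjoint_left]
      intro v hv hv'
      have h5 : d2 M e T v = 0 := (Finset.mem_filter.1 hv).2
      rw [Finset.mem_union] at hv'
      rcases hv' with hv' | hv'
      · obtain ⟨x, hx, hvx⟩ := Finset.mem_biUnion.1 hv'
        have := hd2 v x (hLM hx) hvx
        omega
      · obtain ⟨x, hx, hvx⟩ := Finset.mem_biUnion.1 hv'
        have := hd2 v x (hQM hx) hvx
        omega
    have h5 : (W \ T).card = (II W M e T).card + ((VL M e T).card + (VQ M e T).card) := by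
      rw [h2, Finset.card_union_of_disjoint h4, Finset.card_union_of_disjoint h3]
    omega
  · have h1 := Finset.sum_card_bipartiteAbove_eq_sum_card_bipartiteBelow
      (s := QQ M e T) (t := VQ M e T) (fun x v => v ∈ e x)
    have h2 : ∀ x ∈ QQ M e T,
        ((VQ M e T).bipartiteAbove (fun x v => v ∈ e x) x).card = 3 := by
      intro x hx
      have h3 : (VQ M e T).bipartiteAbove (fun x v => v ∈ e x) x = e x := by
        ext v
        rw [Finset.mem_bipartiteAbove]
        constructor
        · exact fun h => h.2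
        · exact fun h => ⟨Finset.mem_biUnion.2 ⟨x, hx, h⟩, h⟩
      rw [h3]
      exact (h.1 x (hM2M (hQM hx))).2
    have h3 : ∀ v ∈ VQ M e T,
        ((QQ M e T).bipartiteBelow (fun x v => v ∈ e x) v).card =
          1 + if d2 M e T v = 2 then 1 else 0 := by
      intro v hv
      obtain ⟨y, hy, hvy⟩ := Finset.mem_biUnion.1 hv
      have h4 : (QQ M e T).bipartiteBelow (fun x v => v ∈ e x) v =
          (M2 M e T).filter (fun x => v ∈ e x) := by
        ext x
        rw [Finset.mem_bipartiteBelow, Finset.mem_filter]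
        constructor
        · exact fun h => ⟨hQM h.1, h.2⟩
        · rintro ⟨hx, hvx⟩
          refine ⟨?_, hvx⟩
          rcases hcases x hx with hl | hq
          · exact absurd hvy (Finset.disjoint_left.1 (hLQ x hl y hy) hvx)
          · exact hq
      have h5 : ((QQ M e T).bipartiteBelow (fun x v => v ∈ e x) v).card = d2 M e T v := by
        rw [h4]
        rfl
      have h6 := hd2 v y (hQM hy) hvy
      have h7 := b4 v (b1 y (hQM hy) hvy)
      rw [h5]
      split_ifs with h8
      · omega
      · omega
    rw [Finset.sum_congr rfl h2, Finset.sum_congr rfl h3, Finset.sum_const, smul_eq_mul,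
      Finset.sum_add_distrib, Finset.sum_const, smul_eq_mul, mul_one, ← Finset.card_filter] at h1
    unfold eQ
    omega

end Pool.TD
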