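import Pool.Agent.Work.MP_f4e338_TD.Interface

/-! # MP_f4e338_co, block FINA: a closed pair is the Moebius-Kantor configuration -/

set_option autoImplicit false

namespace Pool.TD

open Finset

private theorem FINA_enum {V : Type} [DecidableEq V] (s : Finset V) (h : s.card = 3) :
    ∃ u : Fin 3 → V, Function.Injective u ∧ s = Finset.univ.image u := by
  obtain ⟨x, y, z, hxy, hxz, hyz, rfl⟩ := Finset.card_eq_three.1 h
  refine ⟨![x, y, z], ?_, ?_⟩
  · intro i j hij
    fin_cases i <;> fin_cases j <;> simp_all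
  · ext a
    simp [Fin.exists_fin_succ, eq_comm]

private theorem FINA_third {V : Type} [DecidableEq V] (s : Finset V) (x y : V) (h : s.card = 3)
    (hx : x ∈ s) (hy : y ∈ s) (hxy : x ≠ y) : ∃ z, z ≠ x ∧ z ≠ y ∧ s = {x, y, z} := by
  have h1 : ((s.erase x).erase y).card = 1 := by
    rw [Finset.card_erase_of_mem (Finset.mem_erase.2 ⟨hxy.symm, hy⟩),
      Finset.card_erase_of_mem hx, h]
  obtain ⟨z, hz⟩ := Finset.card_eq_one.1 h1
  have hz1 : z ∈ (s.erase x).erase y := by rw [hz]; exact Finset.mem_singleton_self z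
  rw [Finset.mem_erase, Finset.mem_erase] at hz1
  refine ⟨z, hz1.2.1, hz1.1, ?_⟩
  ext a
  rw [Finset.mem_insert, Finset.mem_insert, Finset.mem_singleton]
  constructor
  · intro ha
    by_cases h2 : a = x
    · exact Or.inl h2
    · by_cases h3 : a = y
      · exact Or.inr (Or.inl h3)
      · right; right
        have h4 : a ∈ (s.erase x).erase y := Finset.mem_erase.2 ⟨h3, Finset.mem_erase.2 ⟨h2, ha⟩⟩
        rw [hz] at h4
        exact Finset.mem_singleton.1 h4
  · rintro (rfl | rfl | rfl)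
    · exact hx
    · exact hy
    · exact hz1.2.2

private theorem FINA_der : ∀ s : Fin 3 → Fin 3, Function.Injective s → (∀ i, s i ≠ i) →
    (∀ i, s i = i + 1) ∨ ∀ i, s (Equiv.swap 1 2 i) = Equiv.swap 1 2 (i + 1) := by
  decide

private theorem FINA_zm : ∀ i j : ZMod 8, (∀ k : ZMod 8, (k = i ∨ k = i + 1 ∨ k = i + 3) →
    (k = j ∨ k = j + 1 ∨ k = j + 3)) → i = j := by
  decide

private theorem FINA_asm {V : Type} [DecidableEq V] (N : V → Finset V) (A B : Finset V)
    (b0 b4 E F : V) (u v p q : Fin 3 → V) (hu : Function.Injective u)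
    (hv : Function.Injective v) (huv : ∀ i j, v i ≠ u j) (h04 : b0 ≠ b4) (hu0 : ∀ i, u i ≠ b0)
    (hu4 : ∀ i, u i ≠ b4) (hv0 : ∀ i, v i ≠ b0) (hv4 : ∀ i, v i ≠ b4) (hb0 : b0 ∈ B)
    (hb4 : b4 ∈ B) (huB : ∀ i, u i ∈ B) (hvB : ∀ i, v i ∈ B) (hEA : E ∈ A) (hFA : F ∈ A)
    (hpA : ∀ i, p i ∈ A) (hqA : ∀ i, q i ∈ A) (hp : ∀ i, N (p i) = {b0, u i, v i})
    (hq : ∀ i, N (q i) = {b4, u i, v (i + 1)}) (hE : N E = Finset.univ.image u)
    (hF : N F = Finset.univ.image v) :
    ∃ al be : ZMod 8 → V, Function.Injective al ∧ Function.Injective be ∧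
      (∀ j, al j ∈ A ∧ be j ∈ B) ∧ ∀ j, N (al j) = {be j, be (j + 1), be (j + 3)} := by
  set al : ZMod 8 → V := ![p 0, q 2, E, q 0, q 1, p 1, F, p 2] with hal
  set be : ZMod 8 → V := ![b0, v 0, u 2, u 0, b4, u 1, v 1, v 2] with hbe
  have a0 : al 0 = p 0 := rfl
  have a1 : al 1 = q 2 := rfl
  have a2 : al 2 = E := rfl
  have a3 : al 3 = q 0 := rfl
  have a4 : al 4 = q 1 := rfl
  have a5 : al 5 = p 1 := rfl
  have a6 : al 6 = F := rfl
  have a7 : al 7 = p 2 := rfl
  have e0 : be 0 = b0 := rfl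
  have e1 : be 1 = v 0 := rfl
  have e2 : be 2 = u 2 := rfl
  have e3 : be 3 = u 0 := rfl
  have e4 : be 4 = b4 := rfl
  have e5 : be 5 = u 1 := rfl
  have e6 : be 6 = v 1 := rfl
  have e7 : be 7 = v 2 := rfl
  have hcases : ∀ j : ZMod 8, j = 0 ∨ j = 1 ∨ j = 2 ∨ j = 3 ∨ j = 4 ∨ j = 5 ∨ j = 6 ∨ j = 7 := by
    decide
  have hN : ∀ j, N (al j) = {be j, be (j + 1), be (j + 3)} := by
    intro j
    rcases hcases j with rfl | rfl | rfl | rfl | rfl | rfl | rfl | rfl
    · rw [show (0 : ZMod 8) + 1 = 1 by decide, show (0 : ZMod 8) + 3 = 3 by decide, a0, e0, e1, e3,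
        hp]
      ext x; simp only [Finset.mem_insert, Finset.mem_singleton]; tauto
    · rw [show (1 : ZMod 8) + 1 = 2 by decide, show (1 : ZMod 8) + 3 = 4 by decide, a1, e1, e2, e4,
        hq, show (2 : Fin 3) + 1 = 0 by decide]
      ext x; simp only [Finset.mem_insert, Finset.mem_singleton]; tauto
    · rw [show (2 : ZMod 8) + 1 = 3 by decide, show (2 : ZMod 8) + 3 = 5 by decide, a2, e2, e3, e5,
        hE]
      ext x
      simp only [Finset.mem_insert, Finset.mem_singleton, Finset.mem_image, Finset.mem_univ,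
        true_and, Fin.exists_fin_succ, eq_comm]
      simp
      tauto
    · rw [show (3 : ZMod 8) + 1 = 4 by decide, show (3 : ZMod 8) + 3 = 6 by decide, a3, e3, e4, e6,
        hq, show (0 : Fin 3) + 1 = 1 by decide]
      ext x; simp only [Finset.mem_insert, Finset.mem_singleton]; tauto
    · rw [show (4 : ZMod 8) + 1 = 5 by decide, show (4 : ZMod 8) + 3 = 7 by decide, a4, e4, e5, e7,
        hq, show (1 : Fin 3) + 1 = 2 by decide]
    · rw [show (5 : ZMod 8) + 1 = 6 by decide, show (5 : ZMod 8) + 3 = 0 by decide, a5, e5, e6, e0,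
        hp]
      ext x; simp only [Finset.mem_insert, Finset.mem_singleton]; tauto
    · rw [show (6 : ZMod 8) + 1 = 7 by decide, show (6 : ZMod 8) + 3 = 1 by decide, a6, e6, e7, e1,
        hF]
      ext x
      simp only [Finset.mem_insert, Finset.mem_singleton, Finset.mem_image, Finset.mem_univ,
        true_and, Fin.exists_fin_succ, eq_comm]
      simp
      tauto
    · rw [show (7 : ZMod 8) + 1 = 0 by decide, show (7 : ZMod 8) + 3 = 2 by decide, a7, e7, e0, e2,
        hp]
      ext x; simp only [Finset.mem_insert, Finset.mem_singleton]; tauto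
  have hbinj : Function.Injective be := by
    intro i j hij
    rcases hcases i with rfl | rfl | rfl | rfl | rfl | rfl | rfl | rfl <;>
      rcases hcases j with rfl | rfl | rfl | rfl | rfl | rfl | rfl | rfl <;>
      first
      | rfl
      | (exfalso
         simp only [e0, e1, e2, e3, e4, e5, e6, e7] at hij
         first
         | exact h04 hij
         | exact h04 hij.symm
         | exact hu0 _ hij
         | exact hu0 _ hij.symm
         | exact hu4 _ hij
         | exact hu4 _ hij.symm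
         | exact hv0 _ hij
         | exact hv0 _ hij.symm
         | exact hv4 _ hij
         | exact hv4 _ hij.symm
         | exact huv _ _ hij
         | exact huv _ _ hij.symm
         | exact absurd (hu hij) (by decide)
         | exact absurd (hv hij) (by decide))
  refine ⟨al, be, ?_, hbinj, ?_, hN⟩
  · intro i j hij
    apply FINA_zm i j
    intro k hk
    have h1 : be k ∈ N (al i) := by
      rw [hN i, Finset.mem_insert, Finset.mem_insert, Finset.mem_singleton]
      rcases hk with rfl | rfl | rfl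
      · exact Or.inl rfl
      · exact Or.inr (Or.inl rfl)
      · exact Or.inr (Or.inr rfl)
    rw [hij, hN j, Finset.mem_insert, Finset.mem_insert, Finset.mem_singleton] at h1
    rcases h1 with h1 | h1 | h1
    · exact Or.inl (hbinj h1)
    · exact Or.inr (Or.inl (hbinj h1))
    · exact Or.inr (Or.inr (hbinj h1))
  · intro j
    rcases hcases j with rfl | rfl | rfl | rfl | rfl | rfl | rfl | rfl
    · exact ⟨hpA 0, hb0⟩
    · exact ⟨hqA 2, hvB 0⟩
    · exact ⟨hEA, huB 2⟩
    · exact ⟨hqA 0, huB 0⟩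
    · exact ⟨hqA 1, hb4⟩
    · exact ⟨hpA 1, huB 1⟩
    · exact ⟨hFA, hvB 1⟩
    · exact ⟨hpA 2, hvB 2⟩

theorem p_FINA : Stmt_FINA := by
  intro V _ _ N A B hN hC
  obtain ⟨hsym, -, -, hlin⟩ := hN
  obtain ⟨hA8, hB8, hA, hB⟩ := hC
  have sy : ∀ {x y}, x ∈ N y → y ∈ N x := fun {x y} h => (hsym x y).1 h
  have lin : ∀ {a a' x y}, a ≠ a' → x ∈ N a → x ∈ N a' → y ∈ N a → y ∈ N a' → x = y := by
    intro a a' x y haa h1 h2 h3 h4
    exact Finset.card_le_one.1 (hlin a a' haa) x (Finset.mem_inter.2 ⟨h1, h2⟩) y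
      (Finset.mem_inter.2 ⟨h3, h4⟩)
  have hU : ∀ b ∈ B, ((N b).biUnion (fun a => (N a).erase b)).card = 6 := by
    intro b hb
    rw [Finset.card_biUnion]
    · have h1 : ∀ a ∈ N b, ((N a).erase b).card = 2 := by
        intro a ha
        rw [Finset.card_erase_of_mem (sy ha), (hA a ((hB b hb).1 ha)).2]
      rw [Finset.sum_congr rfl h1, Finset.sum_const, (hB b hb).2]
      rfl
    · intro a ha a' ha' haa
      rw [Function.onFun, Finset.disjoint_left]
      intro x hx hx'
      rw [Finset.mem_erase] at hx hx'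
      exact hx.1 (lin haa hx.2 hx'.2 (sy ha) (sy ha'))
  have hUB : ∀ b ∈ B, (N b).biUnion (fun a => (N a).erase b) ⊆ B := by
    intro b hb x hx
    rw [Finset.mem_biUnion] at hx
    obtain ⟨a, ha, hx⟩ := hx
    exact (hA a ((hB b hb).1 ha)).1 (Finset.mem_of_mem_erase hx)
  have ex : ∀ b ∈ B, ∃ c ∈ B, c ≠ b ∧ ∀ a ∈ N b, c ∉ N a := by
    intro b hb
    by_contra h
    push Not at h
    have h1 : B ⊆ insert b ((N b).biUnion (fun a => (N a).erase b)) := by
      intro c hc
      by_cases hcb : c = b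
      · rw [hcb]
        exact Finset.mem_insert_self _ _
      · obtain ⟨a, ha, hca⟩ := h c hc hcb
        exact Finset.mem_insert_of_mem (Finset.mem_biUnion.2 ⟨a, ha,
          Finset.mem_erase.2 ⟨hcb, hca⟩⟩)
    have h2 := Finset.card_le_card h1
    have h3 := Finset.card_insert_le b ((N b).biUnion (fun a => (N a).erase b))
    rw [hU b hb] at h3
    omega
  have uniq : ∀ b ∈ B, ∀ c ∈ B, ∀ d ∈ B, c ≠ b → d ≠ b → (∀ a ∈ N b, c ∉ N a) →
      (∀ a ∈ N b, d ∉ N a) → c = d := by
    intro b hb c hc d hd hcb hdb h1 h2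
    by_contra hcd
    have n1 : ∀ z, z = b ∨ (∀ a ∈ N b, z ∉ N a) →
        z ∉ (N b).biUnion (fun a => (N a).erase b) := by
      intro z hz hz'
      rw [Finset.mem_biUnion] at hz'
      obtain ⟨a, ha, hz'⟩ := hz'
      rw [Finset.mem_erase] at hz'
      rcases hz with hz | hz
      · exact hz'.1 hz
      · exact hz a ha hz'.2
    have h3 : insert b (insert c (insert d ((N b).biUnion (fun a => (N a).erase b)))) ⊆ B := by
      intro z hz
      rw [Finset.mem_insert, Finset.mem_insert, Finset.mem_insert] at hz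
      rcases hz with rfl | rfl | rfl | hz
      · exact hb
      · exact hc
      · exact hd
      · exact hUB b hb hz
    have h4 := Finset.card_le_card h3
    rw [Finset.card_insert_of_notMem, Finset.card_insert_of_notMem,
      Finset.card_insert_of_notMem (n1 d (Or.inr h2)), hU b hb] at h4
    · omega
    · rw [Finset.mem_insert, not_or]
      exact ⟨hcd, n1 c (Or.inr h1)⟩
    · rw [Finset.mem_insert, Finset.mem_insert, not_or, not_or]
      exact ⟨hcb.symm, hdb.symm, n1 b (Or.inl rfl)⟩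
  -- the two base points
  obtain ⟨b0, hb0⟩ : B.Nonempty := by
    rw [← Finset.card_pos, hB8]
    norm_num
  obtain ⟨b4, hb4, h40, hnc⟩ := ex b0 hb0
  have hnc' : ∀ a ∈ N b4, b0 ∉ N a := fun a ha h => hnc a (sy h) (sy ha)
  have col0 : ∀ z ∈ B, z ≠ b0 → z ≠ b4 → ∃ a ∈ N b0, z ∈ N a := by
    intro z hz h1 h2
    by_contra h
    push Not at h
    exact h2 (uniq b0 hb0 z hz b4 hb4 h1 h40 h hnc)
  have col4 : ∀ z ∈ B, z ≠ b0 → z ≠ b4 → ∃ a ∈ N b4, z ∈ N a := by
    intro z hz h1 h2
    by_contra h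
    push Not at h
    exact h1 (uniq b4 hb4 z hz b0 hb0 h2 h40.symm h hnc')
  -- a line through none of them
  obtain ⟨E, hEA, hE0, hE4⟩ : ∃ E ∈ A, E ∉ N b0 ∧ E ∉ N b4 := by
    by_contra h
    push Not at h
    have h1 : A ⊆ N b0 ∪ N b4 := by
      intro a ha
      rw [Finset.mem_union]
      by_cases h2 : a ∈ N b0
      · exact Or.inl h2
      · exact Or.inr (h a ha h2)
    have h2 := Finset.card_le_card h1
    have h3 := Finset.card_union_le (N b0) (N b4)
    rw [(hB b0 hb0).2, (hB b4 hb4).2] at h3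
    omega
  obtain ⟨u, hui, hEu⟩ := FINA_enum (N E) (hA E hEA).2
  have huE : ∀ i, u i ∈ N E := fun i => by
    rw [hEu]
    exact Finset.mem_image_of_mem _ (Finset.mem_univ i)
  have huB : ∀ i, u i ∈ B := fun i => (hA E hEA).1 (huE i)
  have hu0 : ∀ i, u i ≠ b0 := fun i h => hE0 (sy (h ▸ huE i))
  have hu4 : ∀ i, u i ≠ b4 := fun i h => hE4 (sy (h ▸ huE i))
  choose p hp0 hpu using fun i => col0 (u i) (huB i) (hu0 i) (hu4 i)
  choose q hq4 hqu using fun i => col4 (u i) (huB i) (hu0 i) (hu4 i)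
  have hpA : ∀ i, p i ∈ A := fun i => (hB b0 hb0).1 (hp0 i)
  have hqA : ∀ i, q i ∈ A := fun i => (hB b4 hb4).1 (hq4 i)
  have hpE : ∀ i, E ≠ p i := fun i h => hE0 (h ▸ hp0 i)
  have hqE : ∀ i, E ≠ q i := fun i h => hE4 (h ▸ hq4 i)
  have hpi : Function.Injective p := by
    intro i j hij
    apply hui
    exact lin (hpE i) (huE i) (hpu i) (huE j) (hij ▸ hpu j)
  have hqi : Function.Injective q := by
    intro i j hij
    apply hui
    exact lin (hqE i) (huE i) (hqu i) (huE j) (hij ▸ hqu j)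
  have hpq : ∀ i j, p i ≠ q j := fun i j h => hnc (p i) (hp0 i) (sy (h ▸ hq4 j))
  choose v hv0 hvu hpv using fun i => FINA_third (N (p i)) b0 (u i) (hA _ (hpA i)).2 (sy (hp0 i))
    (hpu i) (hu0 i).symm
  choose w hw4 hwu hqw using fun i => FINA_third (N (q i)) b4 (u i) (hA _ (hqA i)).2 (sy (hq4 i))
    (hqu i) (hu4 i).symm
  have hvp : ∀ i, v i ∈ N (p i) := fun i => by rw [hpv i]; simp
  have hwq : ∀ i, w i ∈ N (q i) := fun i => by rw [hqw i]; simp
  have hvB : ∀ i, v i ∈ B := fun i => (hA _ (hpA i)).1 (hvp i)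
  have hwB : ∀ i, w i ∈ B := fun i => (hA _ (hqA i)).1 (hwq i)
  have hvi : Function.Injective v := by
    intro i j hij
    by_contra hne
    exact hv0 i (lin (fun h => hne (hpi h)) (hvp i) (hij ▸ hvp j) (sy (hp0 i)) (sy (hp0 j)))
  have hwi : Function.Injective w := by
    intro i j hij
    by_contra hne
    exact hw4 i (lin (fun h => hne (hqi h)) (hwq i) (hij ▸ hwq j) (sy (hq4 i)) (sy (hq4 j)))
  have huv : ∀ i j, v i ≠ u j := by
    intro i j h
    by_cases hij : i = j
    · rw [← hij] at h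
      exact hvu i h
    · exact hv0 i (lin (fun h' => hij (hpi h')) (hvp i) (h ▸ hpu j) (sy (hp0 i)) (sy (hp0 j)))
  have huw : ∀ i j, w i ≠ u j := by
    intro i j h
    by_cases hij : i = j
    · rw [← hij] at h
      exact hwu i h
    · exact hw4 i (lin (fun h' => hij (hqi h')) (hwq i) (h ▸ hqu j) (sy (hq4 i)) (sy (hq4 j)))
  have hv4 : ∀ i, v i ≠ b4 := fun i h => hnc (p i) (hp0 i) (h ▸ hvp i)
  have hw0 : ∀ i, w i ≠ b0 := fun i h => hnc' (q i) (hq4 i) (h ▸ hwq i)
  -- the eight points
  have hpts : ∀ z ∈ B, z = b0 ∨ z = b4 ∨ (∃ i, u i = z) ∨ ∃ i, v i = z := by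
    have h1 : insert b0 (insert b4 (Finset.univ.image u ∪ Finset.univ.image v)) ⊆ B := by
      intro z hz
      rw [Finset.mem_insert, Finset.mem_insert, Finset.mem_union, Finset.mem_image,
        Finset.mem_image] at hz
      rcases hz with rfl | rfl | ⟨i, -, rfl⟩ | ⟨i, -, rfl⟩
      · exact hb0
      · exact hb4
      · exact huB i
      · exact hvB i
    have h2 : (insert b0 (insert b4 (Finset.univ.image u ∪ Finset.univ.image v))).card = 8 := by
      rw [Finset.card_insert_of_notMem, Finset.card_insert_of_notMem, Finset.card_union_of_disjoint,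
        Finset.card_image_of_injective _ hui, Finset.card_image_of_injective _ hvi]
      · rfl
      · rw [Finset.disjoint_left]
        intro z hz hz'
        rw [Finset.mem_image] at hz hz'
        obtain ⟨i, -, rfl⟩ := hz
        obtain ⟨j, -, hj⟩ := hz'
        exact huv j i hj
      · rw [Finset.mem_union, Finset.mem_image, Finset.mem_image]
        rintro (⟨i, -, h⟩ | ⟨i, -, h⟩)
        · exact hu4 i h
        · exact hv4 i h
      · rw [Finset.mem_insert, Finset.mem_union, Finset.mem_image, Finset.mem_image]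
        rintro (h | ⟨i, -, h⟩ | ⟨i, -, h⟩)
        · exact h40 h.symm
        · exact hu0 i h
        · exact hv0 i h
    have h3 := Finset.eq_of_subset_of_card_le h1 (by rw [h2, hB8])
    intro z hz
    rw [← h3, Finset.mem_insert, Finset.mem_insert, Finset.mem_union, Finset.mem_image,
      Finset.mem_image] at hz
    rcases hz with h | h | ⟨i, -, h⟩ | ⟨i, -, h⟩
    · exact Or.inl h
    · exact Or.inr (Or.inl h)
    · exact Or.inr (Or.inr (Or.inl ⟨i, h⟩))
    · exact Or.inr (Or.inr (Or.inr ⟨i, h⟩))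
  -- the derangement
  have hs : ∀ i, ∃ j, v j = w i := by
    intro i
    rcases hpts (w i) (hwB i) with h | h | ⟨j, h⟩ | h
    · exact absurd h (hw0 i)
    · exact absurd h (hw4 i)
    · exact absurd h.symm (huw i j)
    · exact h
  choose s hsw using hs
  have hsi : Function.Injective s := by
    intro i j hij
    apply hwi
    rw [← hsw i, ← hsw j, hij]
  have hsn : ∀ i, s i ≠ i := by
    intro i h
    have h1 : v i = w i := by rw [← hsw i, h]
    exact hvu i (lin (hpq i i) (hvp i) (h1 ▸ hwq i) (hpu i) (hqu i))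
  -- the eighth line
  have hNb0 : N b0 = Finset.univ.image p := by
    symm
    apply Finset.eq_of_subset_of_card_le
    · intro z hz
      rw [Finset.mem_image] at hz
      obtain ⟨i, -, rfl⟩ := hz
      exact hp0 i
    · rw [Finset.card_image_of_injective _ hpi, (hB b0 hb0).2]
      rfl
  have hNb4 : N b4 = Finset.univ.image q := by
    symm
    apply Finset.eq_of_subset_of_card_le
    · intro z hz
      rw [Finset.mem_image] at hz
      obtain ⟨i, -, rfl⟩ := hz
      exact hq4 i
    · rw [Finset.card_image_of_injective _ hqi, (hB b4 hb4).2]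
      rfl
  have hNu : ∀ i, N (u i) = {E, p i, q i} := by
    intro i
    symm
    apply Finset.eq_of_subset_of_card_le
    · intro z hz
      rw [Finset.mem_insert, Finset.mem_insert, Finset.mem_singleton] at hz
      rcases hz with rfl | rfl | rfl
      · exact sy (huE i)
      · exact sy (hpu i)
      · exact sy (hqu i)
    · rw [(hB _ (huB i)).2]
      have h1 : ({E, p i, q i} : Finset V).card = 3 :=
        Finset.card_eq_three.2 ⟨_, _, _, hpE i, hqE i, hpq i i, rfl⟩
      rw [h1]
  obtain ⟨F, hFA, hF⟩ : ∃ F ∈ A, F ∉ insert E (N b0 ∪ N b4) := by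
    by_contra h
    push Not at h
    have h1 : A ⊆ insert E (N b0 ∪ N b4) := fun a ha => h a ha
    have h2 := Finset.card_le_card h1
    have h3 := Finset.card_insert_le E (N b0 ∪ N b4)
    have h4 := Finset.card_union_le (N b0) (N b4)
    rw [(hB b0 hb0).2, (hB b4 hb4).2] at h4
    omega
  rw [Finset.mem_insert, Finset.mem_union, not_or, not_or] at hF
  obtain ⟨hFE, hF0, hF4⟩ := hF
  have hNF : N F = Finset.univ.image v := by
    apply Finset.eq_of_subset_of_card_le
    · intro z hz
      rw [Finset.mem_image]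
      rcases hpts z ((hA F hFA).1 hz) with h | h | ⟨j, h⟩ | ⟨j, h⟩
      · exact absurd (sy (h ▸ hz)) hF0
      · exact absurd (sy (h ▸ hz)) hF4
      · exfalso
        rw [← h] at hz
        have h1 := sy hz
        rw [hNu j, Finset.mem_insert, Finset.mem_insert, Finset.mem_singleton] at h1
        rcases h1 with h1 | h1 | h1
        · exact hFE h1
        · exact hF0 (h1 ▸ hp0 j)
        · exact hF4 (h1 ▸ hq4 j)
      · exact ⟨j, Finset.mem_univ _, h⟩
    · rw [Finset.card_image_of_injective _ hvi, (hA F hFA).2]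
      rfl
  -- assembly
  obtain ⟨σ, hσ⟩ : ∃ σ : Equiv.Perm (Fin 3), ∀ i, s (σ i) = σ (i + 1) := by
    rcases FINA_der s hsi hsn with h | h
    · exact ⟨1, fun i => h i⟩
    · exact ⟨Equiv.swap 1 2, h⟩
  have himg : ∀ f : Fin 3 → V, Finset.univ.image f = Finset.univ.image (fun i => f (σ i)) := by
    intro f
    ext z
    simp only [Finset.mem_image, Finset.mem_univ, true_and]
    constructor
    · rintro ⟨i, rfl⟩
      exact ⟨σ.symm i, by rw [Equiv.apply_symm_apply]⟩
    · rintro ⟨i, rfl⟩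
      exact ⟨_, rfl⟩
  refine FINA_asm N A B b0 b4 E F (fun i => u (σ i)) (fun i => v (σ i)) (fun i => p (σ i))
    (fun i => q (σ i)) (fun i j h => σ.injective (hui h)) (fun i j h => σ.injective (hvi h))
    (fun i j => huv _ _) h40.symm (fun i => hu0 _) (fun i => hu4 _) (fun i => hv0 _)
    (fun i => hv4 _) hb0 hb4 (fun i => huB _) (fun i => hvB _) hEA hFA (fun i => hpA _)
    (fun i => hqA _) (fun i => hpv _) (fun i => ?_) ?_ ?_
  · show N (q (σ i)) = {b4, u (σ i), v (σ (i + 1))}
    rw [hqw, ← hσ, hsw]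
  · rw [hEu]
    exact himg u
  · rw [hNF]
    exact himg v

end Pool.TD
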