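import Pool.Agent.Work.MP_f4e338_TD.Interface

/-! # MP_f4e338_co, block FINB of THEOREM TD: no loopless polarity -/

set_option autoImplicit false

namespace Pool.TD

open Finset

private def FINB_d (b t : ZMod 8) : Bool := decide (b = t ∨ b = t + 1 ∨ b = t + 3)

private lemma FINB_chk : ∀ t0 : ZMod 8, FINB_d 0 t0 = false →
    ∀ t1 : ZMod 8, (FINB_d 1 t1 = false ∧ t1 ≠ t0 ∧ FINB_d 1 t0 = FINB_d 0 t1) →
    ∀ t2 : ZMod 8, (FINB_d 2 t2 = false ∧ t2 ≠ t0 ∧ t2 ≠ t1 ∧ FINB_d 2 t0 = FINB_d 0 t2 ∧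
      FINB_d 2 t1 = FINB_d 1 t2) →
    ∀ t3 : ZMod 8, ¬ (FINB_d 3 t3 = false ∧ t3 ≠ t0 ∧ t3 ≠ t1 ∧ t3 ≠ t2 ∧
      FINB_d 3 t0 = FINB_d 0 t3 ∧ FINB_d 3 t1 = FINB_d 1 t3 ∧ FINB_d 3 t2 = FINB_d 2 t3) := by
  decide +kernel

theorem p_FINB : Stmt_FINB := by
  intro V _ _ N al be hN hal hbe hNal hex
  obtain ⟨hsym, hirr, -, -⟩ := hN
  choose s hs using hex
  have hsinj : Function.Injective s := by
    intro i j hij
    apply hal
    rw [hs i, hs j, hij]
  have hsbij : Function.Bijective s := Finite.injective_iff_bijective.mp hsinj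
  have hsur : ∀ a, ∃ i, s i = a := hsbij.2
  choose t ht using hsur
  have htinj : ∀ a b, a ≠ b → t a ≠ t b := by
    intro a b hab h
    apply hab
    rw [← ht a, ← ht b, h]
  have hbt : ∀ a, be a = al (t a) := by
    intro a
    rw [hs (t a), ht a]
  have hmem : ∀ a b, be b ∈ N (be a) ↔ (b = t a ∨ b = t a + 1 ∨ b = t a + 3) := by
    intro a b
    rw [hbt a, hNal (t a)]
    simp only [Finset.mem_insert, Finset.mem_singleton]
    constructor
    · rintro (h | h | h)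
      · exact Or.inl (hbe h)
      · exact Or.inr (Or.inl (hbe h))
      · exact Or.inr (Or.inr (hbe h))
    · rintro (h | h | h)
      · exact Or.inl (by rw [h])
      · exact Or.inr (Or.inl (by rw [h]))
      · exact Or.inr (Or.inr (by rw [h]))
  have h1 : ∀ a b, (b = t a ∨ b = t a + 1 ∨ b = t a + 3) ↔ (a = t b ∨ a = t b + 1 ∨ a = t b + 3) := by
    intro a b
    rw [← hmem a b, ← hmem b a]
    exact hsym _ _
  have h2 : ∀ a, ¬ (a = t a ∨ a = t a + 1 ∨ a = t a + 3) := by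
    intro a h
    exact hirr _ ((hmem a a).mpr h)
  have h3 : ∀ a b, FINB_d b (t a) = FINB_d a (t b) := by
    intro a b
    unfold FINB_d
    exact decide_eq_decide.mpr (h1 a b)
  have h4 : ∀ a, FINB_d a (t a) = false := by
    intro a
    unfold FINB_d
    exact decide_eq_false (h2 a)
  exact FINB_chk (t 0) (h4 0) (t 1) ⟨h4 1, htinj 1 0 (by decide), h3 0 1⟩
    (t 2) ⟨h4 2, htinj 2 0 (by decide), htinj 2 1 (by decide), h3 0 2, h3 1 2⟩
    (t 3) ⟨h4 3, htinj 3 0 (by decide), htinj 3 1 (by decide), htinj 3 2 (by decide),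
      h3 0 3, h3 1 3, h3 2 3⟩

end Pool.TD
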