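import Pool.Agent.Work.MP_f4e338_TD.Interface

set_option autoImplicit false
set_option maxRecDepth 100000

/-! # Block FINC (helper85): the incidence graph of the configuration {j, j+1, j+3} mod 8 is
GP(8,3) -/

namespace Pool.TD

open Finset

/-- the table -/
def FINC_t (p : Bool × ZMod 8) : Bool × ZMod 8 :=
  match p with
  | (false, i) => (![(false, 0), (true, 0), (false, 1), (true, 1), (false, 4), (true, 4),
      (false, 5), (true, 5)] : Fin 8 → Bool × ZMod 8) i
  | (true, i) => (![(true, 7), (false, 3), (true, 6), (false, 2), (true, 3), (false, 7),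
      (true, 2), (false, 6)] : Fin 8 → Bool × ZMod 8) i

/-- the incidence relation -/
def FINC_r (p q : Bool × ZMod 8) : Prop :=
  (p.1 = true ∧ q.1 = false ∧ (q.2 = p.2 ∨ q.2 = p.2 + 1 ∨ q.2 = p.2 + 3)) ∨
    (q.1 = true ∧ p.1 = false ∧ (p.2 = q.2 ∨ p.2 = q.2 + 1 ∨ p.2 = q.2 + 3))

instance (p q : Bool × ZMod 8) : Decidable (FINC_r p q) := by
  unfold FINC_r; infer_instance

theorem FINC_inj : Function.Injective FINC_t := by
  decide

theorem FINC_chk : ∀ a b : Bool × ZMod 8,
    (a ≠ b ∧ (((a.1 = false ∧ b.1 = false ∧ b.2 = a.2 + 1) ∨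
          (a.1 = false ∧ b.1 = true ∧ b.2 = a.2) ∨
          (a.1 = true ∧ b.1 = true ∧ b.2 = a.2 + 3)) ∨
        ((b.1 = false ∧ a.1 = false ∧ a.2 = b.2 + 1) ∨
          (b.1 = false ∧ a.1 = true ∧ a.2 = b.2) ∨
          (b.1 = true ∧ a.1 = true ∧ a.2 = b.2 + 3)))) ↔ FINC_r (FINC_t a) (FINC_t b) := by
  decide

section

variable {V : Type} (al be : ZMod 8 → V)

/-- the labelling -/
def FINC_F (p : Bool × ZMod 8) : V := if p.1 = true then al p.2 else be p.2

theorem FINC_Ft (j : ZMod 8) : FINC_F al be (true, j) = al j := if_pos rfl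

theorem FINC_Ff (j : ZMod 8) : FINC_F al be (false, j) = be j := if_neg Bool.false_ne_true

end

theorem p_FINC : Stmt_FINC := by
  intro V _ _ G _ al be hal hbe hne hsur hN hb
  have hadj : ∀ (j : ZMod 8) (v : V), G.Adj (al j) v ↔ (v = be j ∨ v = be (j + 1) ∨ v = be (j + 3)) := by
    intro j v
    rw [← SimpleGraph.mem_neighborFinset, hN j]
    simp only [Finset.mem_insert, Finset.mem_singleton]
  have hab : ∀ i j : ZMod 8, G.Adj (al i) (be j) ↔ (j = i ∨ j = i + 1 ∨ j = i + 3) := by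
    intro i j
    rw [hadj i (be j)]
    constructor
    · rintro (h | h | h)
      · exact Or.inl (hbe h)
      · exact Or.inr (Or.inl (hbe h))
      · exact Or.inr (Or.inr (hbe h))
    · rintro (h | h | h)
      · exact Or.inl (congrArg be h)
      · exact Or.inr (Or.inl (congrArg be h))
      · exact Or.inr (Or.inr (congrArg be h))
  have haa : ∀ i j : ZMod 8, ¬ G.Adj (al i) (al j) := by
    intro i j h
    rcases (hadj i (al j)).1 h with h | h | h
    · exact hne _ _ h
    · exact hne _ _ h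
    · exact hne _ _ h
  have hF : ∀ p q : Bool × ZMod 8, G.Adj (FINC_F al be p) (FINC_F al be q) ↔ FINC_r p q := by
    rintro ⟨p1, p2⟩ ⟨q1, q2⟩
    cases p1 <;> cases q1
    · rw [FINC_Ff, FINC_Ff]
      refine iff_of_false (hb _ _) ?_
      rintro (⟨h, -⟩ | ⟨h, -⟩) <;> exact Bool.false_ne_true h
    · rw [FINC_Ff, FINC_Ft, G.adj_comm, hab]
      unfold FINC_r
      simp
    · rw [FINC_Ff, FINC_Ft, hab]
      unfold FINC_r
      simp
    · rw [FINC_Ft, FINC_Ft]
      refine iff_of_false (haa _ _) ?_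
      rintro (⟨-, h, -⟩ | ⟨-, h, -⟩) <;> exact Bool.false_ne_true h.symm
  have hFi : Function.Injective (FINC_F al be) := by
    rintro ⟨p1, p2⟩ ⟨q1, q2⟩ h
    cases p1 <;> cases q1
    · rw [FINC_Ff, FINC_Ff] at h
      rw [hbe h]
    · rw [FINC_Ff, FINC_Ft] at h
      exact absurd h.symm (hne _ _)
    · rw [FINC_Ff, FINC_Ft] at h
      exact absurd h (hne _ _)
    · rw [FINC_Ft, FINC_Ft] at h
      rw [hal h]
  have hFs : Function.Surjective (FINC_F al be) := by
    intro v
    rcases hsur v with ⟨j, rfl⟩ | ⟨j, rfl⟩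
    · exact ⟨(true, j), FINC_Ft al be j⟩
    · exact ⟨(false, j), FINC_Ff al be j⟩
  have htb : Function.Bijective FINC_t := Finite.injective_iff_bijective.1 FINC_inj
  have hbij : Function.Bijective (fun p => FINC_F al be (FINC_t p)) :=
    Function.Bijective.comp ⟨hFi, hFs⟩ htb
  refine ⟨RelIso.symm ⟨Equiv.ofBijective _ hbij, ?_⟩⟩
  intro a b
  show G.Adj (FINC_F al be (FINC_t a)) (FINC_F al be (FINC_t b)) ↔ MK.Adj a b
  rw [hF, ← FINC_chk a b]
  exact Iff.rfl

end Pool.TD
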