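import Pool.Agent.Work.MP_f4e338_TD.Interface

/-! # MP_f4e338_TD, block MAIN: the theorem (helper7) -/

set_option autoImplicit false

namespace Pool.TD

open Finset

theorem MAIN_dg {V : Type} [Fintype V] [DecidableEq V] (N : V → Finset V) (hN : Nb N)
    (R : Finset V) (v : V) : dg (univ \ R) N v = (N v \ R).card := by
  unfold dg
  congr 1
  ext x
  simp only [mem_filter, mem_sdiff, mem_univ, true_and]
  rw [hN.1 v x]
  tauto

theorem p_MAIN (hC4 : Stmt_C4) (hP1 : Stmt_P1) (hSHR : Stmt_SHR) (hBB : Stmt_BB)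
    (hNC : Stmt_NC) (hP2 : Stmt_P2) : Stmt_MAIN := by
  intro V _ _ G _ hconn hdeg hcyc hMK
  have hN := hC4 V G hdeg hcyc
  have hnc := hNC V G hconn hN hMK
  set N : V → Finset V := fun v => G.neighborFinset v with hNdef
  obtain ⟨T1, r4, d4, c3⟩ := hP1 V N hN
  have hMW : ∀ x ∈ univ \ Hit N T1, N x ⊆ univ \ T1 := by
    intro x hx v hv
    simp only [mem_sdiff, mem_univ, true_and] at hx ⊢
    intro hvT
    apply hx
    simp only [Hit, mem_filter, mem_univ, true_and]
    exact ⟨v, mem_inter.mpr ⟨hv, hvT⟩⟩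
  obtain ⟨e, heN, hHY, hfull⟩ := hSHR V (univ \ T1) (univ \ Hit N T1) N
    (fun x hx => ⟨hMW x hx, hN.2.2.1 x⟩)
    (fun x _ y _ hxy => hN.2.2.2 x y hxy)
    (fun v hv => by
      rw [MAIN_dg N hN]
      exact c3 v (by simpa using hv))
  obtain ⟨S, BF, s, hS, hB, hBd, a1, a2⟩ := hP2 V (univ \ T1) (univ \ Hit N T1) e hHY
  have a3 := hBB V N T1 e BF hN d4 c3 heN hHY hfull hnc hB hBd
  have w1 : (univ \ T1).card + T1.card = Fintype.card V := by
    rw [← card_univ]
    exact card_sdiff_add_card_eq_card (subset_univ T1)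
  have w2 : (univ \ Hit N T1).card + (Hit N T1).card = Fintype.card V := by
    rw [← card_univ]
    exact card_sdiff_add_card_eq_card (subset_univ _)
  refine ⟨T1 ∪ S, ?_, ?_⟩
  · intro v
    by_cases hv : v ∈ Hit N T1
    · simp only [Hit, mem_filter, mem_univ, true_and] at hv
      obtain ⟨u, hu⟩ := hv
      rw [mem_inter] at hu
      refine ⟨u, mem_union_left _ hu.2, ?_⟩
      simpa [hNdef] using hu.1
    · have hv' : v ∈ univ \ Hit N T1 := by simpa using hv
      obtain ⟨u, hu⟩ := hS v hv'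
      rw [mem_inter] at hu
      refine ⟨u, mem_union_right _ hu.2, ?_⟩
      simpa [hNdef] using heN v hv' hu.1
  · have hc : (T1 ∪ S).card ≤ T1.card + S.card := card_union_le _ _
    omega

end Pool.TD
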