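import Pool.Agent.Work.MP_f4e338_TD.Interface

/-! # Block MIS: maximal independent sets of vertices of degree 3 -/

set_option autoImplicit false

namespace Pool.TD

open Finset

theorem MIS_co {V : Type} [Fintype V] [DecidableEq V] {M : Finset V} {e : V → Finset V} {t s : V}
    (h : Co M e t s) : Co M e s t := by
  obtain ⟨x, hx, h1, h2⟩ := h
  exact ⟨x, hx, h2, h1⟩

/-- Block MIS. -/
theorem p_MIS : Stmt_MIS := by
  intro V _ _ W M e _
  classical
  let P : Finset (Finset V) := W.powerset.filter fun T =>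
    (∀ t ∈ T, dg M e t = 3) ∧ ∀ t ∈ T, ∀ s ∈ T, t ≠ s → ¬ Co M e t s
  have hP : ∀ T, T ∈ P ↔ T ⊆ W ∧ (∀ t ∈ T, dg M e t = 3) ∧
      ∀ t ∈ T, ∀ s ∈ T, t ≠ s → ¬ Co M e t s := by
    intro T
    simp only [P, Finset.mem_filter, Finset.mem_powerset]
  have hne : P.Nonempty := ⟨∅, (hP ∅).2 ⟨Finset.empty_subset _, by simp, by simp⟩⟩
  obtain ⟨T, hT, hmax⟩ := P.exists_max_image Finset.card hne
  obtain ⟨h1, h2, h3⟩ := (hP T).1 hT
  refine ⟨T, h1, h2, h3, fun v hv hdg hvT => ?_⟩
  by_contra hcon
  push Not at hcon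
  have h4 : insert v T ∈ P := by
    refine (hP _).2 ⟨?_, ?_, ?_⟩
    · intro x hx
      rcases Finset.mem_insert.1 hx with rfl | hx
      · exact hv
      · exact h1 hx
    · intro x hx
      rcases Finset.mem_insert.1 hx with rfl | hx
      · exact hdg
      · exact h2 x hx
    · intro x hx y hy hxy
      rcases Finset.mem_insert.1 hx with hx1 | hx1
      · rcases Finset.mem_insert.1 hy with hy1 | hy1
        · exact absurd (hx1.trans hy1.symm) hxy
        · rw [hx1]
          exact fun h => hcon y hy1 (MIS_co h)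
      · rcases Finset.mem_insert.1 hy with hy1 | hy1
        · rw [hy1]
          exact hcon x hx1
        · exact h3 x hx1 y hy1 hxy
  have h5 := hmax _ h4
  rw [Finset.card_insert_of_notMem hvT] at h5
  omega

end Pool.TD
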