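import Pool.Agent.Work.MP_f4e338_TD.Interface

/-! # Block NC: a connected graph which is not GP(8,3) has no closed pair -/

set_option autoImplicit false

namespace Pool.TD

open Finset

/-- in a connected graph a nonempty set closed under neighbours is everything -/
theorem NC_key {V : Type} {G : SimpleGraph V} (hconn : G.Connected) (S : Set V) {v₀ : V}
    (h₀ : v₀ ∈ S) (hS : ∀ v ∈ S, ∀ w, G.Adj v w → w ∈ S) (v : V) : v ∈ S := by
  obtain ⟨p⟩ := hconn.preconnected v₀ v
  induction p with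
  | nil => exact h₀
  | cons h p ih => exact ih (hS _ h₀ _ h)

/-- an injective map from `ZMod 8` to a set of eight elements is onto -/
theorem NC_onto {V : Type} [DecidableEq V] {A : Finset V} (hA : A.card = 8) {f : ZMod 8 → V}
    (hf : Function.Injective f) (hm : ∀ j, f j ∈ A) {a : V} (ha : a ∈ A) : ∃ j, f j = a := by
  have h1 : Finset.univ.image f = A := by
    apply Finset.eq_of_subset_of_card_le
    · intro x hx
      obtain ⟨j, -, rfl⟩ := Finset.mem_image.1 hx
      exact hm j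
    · rw [Finset.card_image_of_injective _ hf, hA, Finset.card_univ, ZMod.card]
  rw [← h1] at ha
  obtain ⟨j, -, hj⟩ := Finset.mem_image.1 ha
  exact ⟨j, hj⟩

/-- Block NC. -/
theorem p_NC (hFA : Stmt_FINA) (hFB : Stmt_FINB) (hFC : Stmt_FINC) : Stmt_NC := by
  intro V _ _ G _ hconn hNb hMK A B hcl
  obtain ⟨al, be, hal, hbe, hmem, hN⟩ := hFA V (fun v => G.neighborFinset v) A B hNb hcl
  obtain ⟨hA8, hB8, hAN, hBN⟩ := hcl
  have hadj : ∀ v w, G.Adj v w → w ∈ G.neighborFinset v := fun v w h =>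
    (SimpleGraph.mem_neighborFinset G v w).2 h
  by_cases hdis : ∃ v, v ∈ A ∧ v ∈ B
  · obtain ⟨v₀, hv₀⟩ := hdis
    have hall := NC_key hconn {v | v ∈ A ∧ v ∈ B} hv₀ (by
      rintro v ⟨h1, h2⟩ w hw
      exact ⟨(hBN v h2).1 (hadj v w hw), (hAN v h1).1 (hadj v w hw)⟩)
    refine hFB V (fun v => G.neighborFinset v) al be hNb hal hbe hN fun j => ?_
    obtain ⟨i, hi⟩ := NC_onto hB8 hbe (fun j => (hmem j).2) (hall (al j)).2
    exact ⟨i, hi.symm⟩
  · have hne : ∀ v, v ∈ A → v ∈ B → False := fun v h1 h2 => hdis ⟨v, h1, h2⟩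
    have hall := NC_key hconn {v | v ∈ A ∨ v ∈ B} (Or.inl (hmem 0).1) (by
      rintro v (h1 | h2) w hw
      · exact Or.inr ((hAN v h1).1 (hadj v w hw))
      · exact Or.inl ((hBN v h2).1 (hadj v w hw)))
    have h := hFC V G al be hal hbe
      (fun i j hij => hne (al i) (hmem i).1 (by rw [hij]; exact (hmem j).2))
      (fun v => by
        rcases hall v with h1 | h1
        · obtain ⟨j, hj⟩ := NC_onto hA8 hal (fun j => (hmem j).1) h1
          exact Or.inl ⟨j, hj.symm⟩
        · obtain ⟨j, hj⟩ := NC_onto hB8 hbe (fun j => (hmem j).2) h1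
          exact Or.inr ⟨j, hj.symm⟩)
      hN
      (fun i j hij => hne (be j) ((hBN (be i) (hmem i).2).1 (hadj _ _ hij)) (hmem j).2)
    exact not_isEmpty_iff.2 h hMK

end Pool.TD
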