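import Pool.Agent.Work.MP_f4e338_TD.Interface

set_option autoImplicit false

/-! Block P1: phase one. -/

namespace Pool.TD

open Finset

theorem P1_insert {V : Type} [Fintype V] [DecidableEq V] (N : V → Finset V)
    (hs : ∀ x y, x ∈ N y ↔ y ∈ N x) (v : V) (T : Finset V) :
    Hit N (insert v T) = Hit N T ∪ (N v \ Hit N T) := by
  ext x
  simp only [Hit, mem_filter, mem_univ, true_and, mem_union, mem_sdiff, Finset.Nonempty,
    mem_inter, mem_insert]
  constructor
  · rintro ⟨y, hy1, hy2 | hy2⟩
    · subst hy2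
      by_cases h : ∃ z, z ∈ N x ∧ z ∈ T
      · exact Or.inl h
      · exact Or.inr ⟨(hs x y).2 hy1, h⟩
    · exact Or.inl ⟨y, hy1, hy2⟩
  · rintro (⟨y, hy1, hy2⟩ | ⟨h1, -⟩)
    · exact ⟨y, hy1, Or.inr hy2⟩
    · exact ⟨v, (hs v x).2 h1, Or.inl rfl⟩

theorem P1_erase {V : Type} [Fintype V] [DecidableEq V] (N : V → Finset V)
    (t : V) (T : Finset V) :
    Hit N (T.erase t) = Hit N T \ univ.filter (fun x => N x ∩ T = {t}) := by
  ext x
  simp only [Hit, mem_filter, mem_univ, true_and, mem_sdiff, Finset.Nonempty, mem_inter,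
    mem_erase]
  constructor
  · rintro ⟨y, hy1, hy2, hy3⟩
    refine ⟨⟨y, hy1, hy3⟩, fun h => hy2 ?_⟩
    have : y ∈ N x ∩ T := mem_inter.2 ⟨hy1, hy3⟩
    rw [h] at this
    exact mem_singleton.1 this
  · rintro ⟨⟨y, hy1, hy2⟩, h⟩
    by_contra hcon
    apply h
    have h1 : ∀ z, z ∈ N x → z ∈ T → z = t := by
      intro z hz1 hz2
      by_contra hz
      exact hcon ⟨z, hz1, hz, hz2⟩
    ext z
    simp only [mem_inter, mem_singleton]
    constructor
    · rintro ⟨hz1, hz2⟩
      exact h1 z hz1 hz2
    · rintro rfl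
      have := h1 y hy1 hy2
      subst this
      exact ⟨hy1, hy2⟩

theorem p_P1 : Stmt_P1 := by
  intro V _ _ N hN
  obtain ⟨hs, -, -, -⟩ := hN
  let F : Finset V → ℤ := fun T =>
    ((Fintype.card V : ℤ) + 1) * (((Hit N T).card : ℤ) - 3 * T.card) - T.card
  obtain ⟨T1, -, hT1⟩ := (univ : Finset (Finset V)).exists_max_image F ⟨∅, mem_univ _⟩
  have key : ∀ t ∈ T1, 4 ≤ (univ.filter (fun x => N x ∩ T1 = {t})).card := by
    intro t ht
    have h1 := hT1 (T1.erase t) (mem_univ _)
    have hsub : univ.filter (fun x => N x ∩ T1 = {t}) ⊆ Hit N T1 := by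
      intro x hx
      simp only [mem_filter, mem_univ, true_and] at hx
      simp only [Hit, mem_filter, mem_univ, true_and]
      rw [hx]
      exact singleton_nonempty t
    have h2 : ((Hit N (T1.erase t)).card : ℤ) =
        (Hit N T1).card - (univ.filter (fun x => N x ∩ T1 = {t})).card := by
      rw [P1_erase, card_sdiff_of_subset hsub, Nat.cast_sub (card_le_card hsub)]
    have h3 : ((T1.erase t).card : ℤ) = T1.card - 1 := by
      rw [card_erase_of_mem ht, Nat.cast_sub (card_pos.2 ⟨t, ht⟩)]
      simp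
    simp only [F] at h1
    rw [h2, h3] at h1
    by_contra hcon
    have h4 : ((univ.filter (fun x => N x ∩ T1 = {t})).card : ℤ) ≤ 3 := by
      have : (univ.filter (fun x => N x ∩ T1 = {t})).card ≤ 3 := by omega
      exact_mod_cast this
    have h5 : (0 : ℤ) ≤ Fintype.card V := Int.natCast_nonneg _
    nlinarith
  have hPN : ∀ t, univ.filter (fun x => N x ∩ T1 = {t}) ⊆ N t := by
    intro t x hx
    simp only [mem_filter, mem_univ, true_and] at hx
    have h1 : t ∈ N x ∩ T1 := by rw [hx]; exact mem_singleton_self t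
    exact (hs x t).2 (mem_inter.1 h1).1
  refine ⟨T1, ?_, fun t ht => (key t ht).trans (card_le_card (hPN t)), ?_⟩
  · have hdis : (T1 : Set V).PairwiseDisjoint
        (fun t => univ.filter (fun x => N x ∩ T1 = {t})) := by
      intro s _ t _ hst
      rw [Function.onFun, Finset.disjoint_left]
      intro x hx hx'
      simp only [mem_filter, mem_univ, true_and] at hx hx'
      rw [hx] at hx'
      exact hst (singleton_injective hx')
    have h1 : (T1.biUnion fun t => univ.filter (fun x => N x ∩ T1 = {t})).card =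
        ∑ t ∈ T1, (univ.filter (fun x => N x ∩ T1 = {t})).card := card_biUnion hdis
    have h2 : (T1.biUnion fun t => univ.filter (fun x => N x ∩ T1 = {t})) ⊆ Hit N T1 := by
      intro x hx
      rw [mem_biUnion] at hx
      obtain ⟨t, ht, hx⟩ := hx
      simp only [mem_filter, mem_univ, true_and] at hx
      simp only [Hit, mem_filter, mem_univ, true_and]
      rw [hx]
      exact singleton_nonempty t
    have h3 : ∑ _t ∈ T1, 4 ≤ ∑ t ∈ T1, (univ.filter (fun x => N x ∩ T1 = {t})).card :=
      sum_le_sum key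
    rw [sum_const, smul_eq_mul] at h3
    have h4 := card_le_card h2
    omega
  · intro v hv
    have h1 := hT1 (insert v T1) (mem_univ _)
    have h2 : ((Hit N (insert v T1)).card : ℤ) =
        (Hit N T1).card + (N v \ Hit N T1).card := by
      rw [P1_insert N hs, card_union_of_disjoint disjoint_sdiff]
      push_cast
      rfl
    have h3 : ((insert v T1).card : ℤ) = T1.card + 1 := by
      rw [card_insert_of_notMem hv]
      push_cast
      rfl
    simp only [F] at h1
    rw [h2, h3] at h1
    by_contra hcon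
    have h4 : (4 : ℤ) ≤ (N v \ Hit N T1).card := by
      have : 4 ≤ (N v \ Hit N T1).card := by omega
      exact_mod_cast this
    have h5 : (1 : ℤ) ≤ Fintype.card V := by
      have : 0 < Fintype.card V := Fintype.card_pos_iff.2 ⟨v⟩
      exact_mod_cast this
    nlinarith

end Pool.TD
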