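import Pool.Agent.Work.MP_f4e338_TD.Interface

/-! # MP_f4e338_TD, block P2: summary of part 2 (helper7) -/

set_option autoImplicit false

namespace Pool.TD

open Finset

theorem P2_split {V : Type} [Fintype V] [DecidableEq V] (M : Finset V) (e : V → Finset V)
    (T : Finset V) : T.card ≤ (Tb M e T).card + (Tg M e T).card + (T7 M e T).card := by
  have h : T ⊆ Tb M e T ∪ Tg M e T ∪ T7 M e T := by
    intro t ht
    simp only [Tb, Tg, T7, mem_union, mem_filter]
    by_cases h1 : nb M e t ⊆ VL M e T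
    · by_cases h2 : 3 ≤ (tch M e T t).card
      · exact Or.inl (Or.inr ⟨ht, h1, h2⟩)
      · exact Or.inr ⟨ht, h1, by omega⟩
    · exact Or.inl (Or.inl ⟨ht, h1⟩)
  calc T.card ≤ (Tb M e T ∪ Tg M e T ∪ T7 M e T).card := card_le_card h
    _ ≤ (Tb M e T ∪ Tg M e T).card + (T7 M e T).card := card_union_le _ _
    _ ≤ _ := by
      have := card_union_le (Tb M e T) (Tg M e T)
      omega

theorem P2_split7 {V : Type} [Fintype V] [DecidableEq V] (M : Finset V) (e : V → Finset V)
    (T : Finset V) (h7 : ∀ t ∈ T7 M e T, (tch M e T t).card = 2) :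
    (T7 M e T).card ≤ (T8 M e T).card + (Tp M e T).card + (Ts M e T).card := by
  have h : T7 M e T ⊆ T8 M e T ∪ Tp M e T ∪ Ts M e T := by
    intro t ht
    simp only [T8, Tp, Ts, mem_union, mem_filter]
    by_cases hs : ∀ s ∈ T7 M e T, s ≠ t → Disjoint (tch M e T s) (tch M e T t)
    · exact Or.inr ⟨ht, hs⟩
    · push Not at hs
      obtain ⟨s, hs7, hst, hd⟩ := hs
      left
      have hc : (tch M e T s ∩ tch M e T t).card ≤ 2 := by
        rw [← h7 t ht]
        exact card_le_card inter_subset_right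
      have hpos : 0 < (tch M e T s ∩ tch M e T t).card := by
        rw [card_pos]
        by_contra hne
        rw [not_nonempty_iff_eq_empty] at hne
        exact hd (disjoint_iff_inter_eq_empty.mpr hne)
      by_cases h1 : (tch M e T s ∩ tch M e T t).card = 1
      · exact Or.inr ⟨ht, s, hs7, hst, h1⟩
      · left
        refine ⟨ht, s, hs7, hst, ?_⟩
        have h2 : (tch M e T s ∩ tch M e T t).card = 2 := by omega
        have e1 : tch M e T s ∩ tch M e T t = tch M e T t :=
          eq_of_subset_of_card_le inter_subset_right (by rw [h2, h7 t ht])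
        have e2 : tch M e T s ∩ tch M e T t = tch M e T s :=
          eq_of_subset_of_card_le inter_subset_left (by rw [h2, h7 s hs7])
        rw [← e2, e1]
  calc (T7 M e T).card ≤ (T8 M e T ∪ Tp M e T ∪ Ts M e T).card := card_le_card h
    _ ≤ (T8 M e T ∪ Tp M e T).card + (Ts M e T).card := card_union_le _ _
    _ ≤ _ := by
      have := card_union_le (T8 M e T) (Tp M e T)
      omega

theorem p_P2 (hMIS : Stmt_MIS) (hCNT : Stmt_CNT) (hSLT : Stmt_SLT) (hQT : Stmt_QT)
    (hSEV : Stmt_SEV) (hPK : Stmt_PK) (hTSB : Stmt_TSB) (hT8B : Stmt_T8B) : Stmt_P2 := by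
  intro V _ _ W M e hHY
  obtain ⟨T, hT⟩ := hMIS V W M e hHY
  obtain ⟨c1, c2, c3⟩ := hCNT V W M e T hHY hT
  obtain ⟨s1, s2⟩ := hSLT V W M e T hHY hT
  obtain ⟨S2, hS2, q⟩ := hQT V W M e T hHY hT
  obtain ⟨u, S1, hS1, k1, k2, k3⟩ := hPK V W M e T hHY hT
  obtain ⟨BF, hB, hBd, b1⟩ := hT8B V W M e T hHY hT
  have t1 := hTSB V W M e T hHY hT
  have t2 := P2_split M e T
  have t3 := P2_split7 M e T (fun t ht => ((hSEV V W M e T hHY hT).1 t ht).1)
  have heq : eQ M e T ≤ (VQ M e T).card := card_le_card (filter_subset _ _)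
  have hS : (S1 ∪ S2).card ≤ S1.card + S2.card := card_union_le _ _
  refine ⟨S1 ∪ S2, BF, 5 * (II W M e T).card + (2 * (QQ M e T).card - eQ M e T) + 20 * u,
    ?_, hB, hBd, ?_, ?_⟩
  · intro x hx
    by_cases hq : x ∈ QQ M e T
    · exact (hS2 x hq).mono (inter_subset_inter_left subset_union_right)
    · exact (hS1 x hx hq).mono (inter_subset_inter_left subset_union_left)
  · omega
  · omega

end Pool.TD
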