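import Pool.Agent.Work.MP_f4e338_TD.Interface

/-! # MP_f4e338_co, block QT of THEOREM TD: the edges of QQ -/

set_option autoImplicit false

namespace Pool.TD

open Finset

private lemma QT_deg {V : Type} [DecidableEq V] (A : Finset V) (e : V → Finset V) (d : V → ℕ)
    (hlin : ∀ x ∈ A, ∀ y ∈ A, x ≠ y → (e x ∩ e y).card ≤ 1)
    (hd : ∀ x ∈ A, ∀ v ∈ e x, (A.filter (fun y => v ∈ e y)).card = d v)
    (hd2 : ∀ x ∈ A, ∀ v ∈ e x, d v ≤ 2) (x : V) (hx : x ∈ A) :
    (A.filter (fun y => x ≠ y ∧ (e x ∩ e y).Nonempty)).card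
      = ((e x).filter (fun v => d v = 2)).card := by
  have h1 : A.filter (fun y => x ≠ y ∧ (e x ∩ e y).Nonempty)
      = (e x).biUnion (fun v => (A.filter (fun y => v ∈ e y)).erase x) := by
    ext y
    simp only [Finset.mem_filter, Finset.mem_biUnion, Finset.mem_erase]
    constructor
    · rintro ⟨hy, hxy, v, hv⟩
      rw [Finset.mem_inter] at hv
      exact ⟨v, hv.1, fun h => hxy h.symm, hy, hv.2⟩
    · rintro ⟨v, hv, hyx, hy, hvy⟩
      exact ⟨hy, fun h => hyx h.symm, v, Finset.mem_inter.mpr ⟨hv, hvy⟩⟩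
  rw [h1, Finset.card_biUnion, Finset.card_filter]
  · apply Finset.sum_congr rfl
    intro v hv
    rw [Finset.card_erase_of_mem (Finset.mem_filter.mpr ⟨hx, hv⟩), hd x hx v hv]
    have h5 := hd2 x hx v hv
    have h0 : 0 < d v := by
      rw [← hd x hx v hv]
      exact Finset.card_pos.mpr ⟨x, Finset.mem_filter.mpr ⟨hx, hv⟩⟩
    split_ifs with h
    · omega
    · omega
  · intro v hv w hw hvw
    refine Finset.disjoint_left.mpr ?_
    intro y hy hy'
    rw [Finset.mem_erase, Finset.mem_filter] at hy hy'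
    have h2 := hlin x hx y hy.2.1 (fun h => hy.1 h.symm)
    have h3 : ({v, w} : Finset V) ⊆ e x ∩ e y := by
      intro z hz
      rw [Finset.mem_insert, Finset.mem_singleton] at hz
      rcases hz with rfl | rfl
      · exact Finset.mem_inter.mpr ⟨hv, hy.2.2⟩
      · exact Finset.mem_inter.mpr ⟨hw, hy'.2.2⟩
    have h4 := Finset.card_le_card h3
    rw [Finset.card_pair hvw] at h4
    omega

private lemma QT_sum {V : Type} [DecidableEq V] (A : Finset V) (e : V → Finset V) (d : V → ℕ)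
    (hd : ∀ x ∈ A, ∀ v ∈ e x, (A.filter (fun y => v ∈ e y)).card = d v) :
    ∑ x ∈ A, ((e x).filter (fun v => d v = 2)).card
      = 2 * ((A.biUnion e).filter (fun v => d v = 2)).card := by
  have h1 : ∀ x ∈ A, ((e x).filter (fun v => d v = 2)).card
      = ∑ v ∈ (A.biUnion e).filter (fun v => d v = 2), if v ∈ e x then 1 else 0 := by
    intro x hx
    rw [← Finset.card_filter]
    congr 1
    ext v
    simp only [Finset.mem_filter, Finset.mem_biUnion]
    exact ⟨fun h => ⟨⟨⟨x, hx, h.1⟩, h.2⟩, h.1⟩, fun h => ⟨h.2, h.1.2⟩⟩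
  rw [Finset.sum_congr rfl h1, Finset.sum_comm]
  have h2 : ∀ v ∈ (A.biUnion e).filter (fun v => d v = 2),
      (∑ x ∈ A, if v ∈ e x then 1 else 0) = 2 := by
    intro v hv
    rw [Finset.mem_filter, Finset.mem_biUnion] at hv
    obtain ⟨⟨x, hx, hvx⟩, h⟩ := hv
    rw [← Finset.card_filter, hd x hx v hvx, h]
  rw [Finset.sum_congr rfl h2, Finset.sum_const, smul_eq_mul, mul_comm]

private lemma QT_pick {V : Type} [DecidableEq V] [Nonempty V] (A : Finset V) (e : V → Finset V)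
    (f : V → V) (hne : ∀ x ∈ A, (e x).Nonempty)
    (hf : ∀ x ∈ A, f x ∈ A ∧ f (f x) = x ∧ (f x ≠ x → (e x ∩ e (f x)).Nonempty)) :
    ∃ S : Finset V, (∀ x ∈ A, (e x ∩ S).Nonempty) ∧
      2 * S.card ≤ A.card + (A.filter (fun x => f x = x)).card := by
  have hc : ∀ s : Finset V, ∃ v, s.Nonempty → v ∈ s := by
    intro s
    by_cases h : s.Nonempty
    · exact ⟨h.choose, fun _ => h.choose_spec⟩
    · exact ⟨Classical.arbitrary V, fun h' => absurd h' h⟩
  choose c hc using hc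
  have hn : ∀ x ∈ A, (e x ∩ e (f x)).Nonempty := by
    intro x hx
    by_cases h : f x = x
    · rw [h, Finset.inter_self]
      exact hne x hx
    · exact (hf x hx).2.2 h
  refine ⟨A.image (fun x => c (e x ∩ e (f x))), ?_, ?_⟩
  · intro x hx
    exact ⟨_, Finset.mem_inter.mpr ⟨(Finset.mem_inter.mp (hc _ (hn x hx))).1,
      Finset.mem_image_of_mem _ hx⟩⟩
  · have h1 : A.card + (A.filter (fun x => f x = x)).card
        = ∑ x ∈ A, (1 + if f x = x then 1 else 0) := by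
      rw [Finset.sum_add_distrib, Finset.card_filter, Finset.card_eq_sum_ones]
    rw [h1, ← Finset.sum_fiberwise_of_maps_to (g := fun x => c (e x ∩ e (f x)))
      (t := A.image (fun x => c (e x ∩ e (f x)))) (fun x hx => Finset.mem_image_of_mem _ hx)]
    rw [mul_comm, ← smul_eq_mul, ← Finset.sum_const]
    apply Finset.sum_le_sum
    intro v hv
    obtain ⟨x, hx, hxv⟩ := Finset.mem_image.mp hv
    by_cases h : f x = x
    · calc 2 = 1 + (if f x = x then 1 else 0) := by rw [if_pos h]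
        _ ≤ _ := Finset.single_le_sum (f := fun x => 1 + if f x = x then 1 else 0)
            (fun _ _ => Nat.zero_le _) (Finset.mem_filter.mpr ⟨hx, hxv⟩)
    · have h2 : ({x, f x} : Finset V) ⊆ A.filter (fun x => c (e x ∩ e (f x)) = v) := by
        intro z hz
        rw [Finset.mem_insert, Finset.mem_singleton] at hz
        rcases hz with rfl | rfl
        · exact Finset.mem_filter.mpr ⟨hx, hxv⟩
        · refine Finset.mem_filter.mpr ⟨(hf x hx).1, ?_⟩
          rw [(hf x hx).2.1, Finset.inter_comm]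
          exact hxv
      calc 2 = ∑ z ∈ ({x, f x} : Finset V), 1 := by
            rw [Finset.sum_const, Finset.card_pair (fun h' => h h'.symm)]; rfl
        _ ≤ ∑ z ∈ A.filter (fun x => c (e x ∩ e (f x)) = v), 1 :=
            Finset.sum_le_sum_of_subset h2
        _ ≤ _ := Finset.sum_le_sum (fun z _ => Nat.le_add_right _ _)

theorem p_QT (h1 : Stmt_BAS) (_h2 : Stmt_CNT) (h3 : Stmt_MAT) : Stmt_QT := by
  intro V _ _ W M e T hy hm
  obtain ⟨b1, b2, b3, b4, b5, b6⟩ := h1 V W M e T hy hm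
  rcases isEmpty_or_nonempty V with hV | hV
  · refine ⟨∅, fun x => isEmptyElim x, ?_⟩
    have h0 : eQ M e T = 0 := by
      unfold eQ
      rw [Finset.card_eq_zero]
      exact Finset.eq_empty_of_isEmpty _
    rw [h0]
    simp
  have hAM2 : ∀ x ∈ QQ M e T, x ∈ M2 M e T := fun x hx => (Finset.mem_sdiff.mp hx).1
  have hAL : ∀ x ∈ QQ M e T, x ∉ LL M e T := fun x hx => (Finset.mem_sdiff.mp hx).2
  have hM2M : ∀ x ∈ M2 M e T, x ∈ M := fun x hx => (Finset.mem_filter.mp hx).1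
  have hcard : ∀ x ∈ QQ M e T, (e x).card = 3 := fun x hx => (hy.1 x (hM2M x (hAM2 x hx))).2
  have hlin : ∀ x ∈ QQ M e T, ∀ y ∈ QQ M e T, x ≠ y → (e x ∩ e y).card ≤ 1 :=
    fun x hx y hy' hxy => hy.2.1 x (hM2M x (hAM2 x hx)) y (hM2M y (hAM2 y hy')) hxy
  have hin : ∀ x ∈ QQ M e T, ∀ v ∈ e x, ∀ y ∈ M2 M e T, v ∈ e y → y ∈ QQ M e T := by
    intro x hx v hv y hy' hvy
    refine Finset.mem_sdiff.mpr ⟨hy', fun hyL => ?_⟩
    by_cases hxy : y = x
    · subst hxy
      exact hAL _ hx hyL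
    · exact Finset.disjoint_left.mp (b6 y hyL x (hAM2 x hx) hxy) hvy hv
  have hd : ∀ x ∈ QQ M e T, ∀ v ∈ e x,
      ((QQ M e T).filter (fun y => v ∈ e y)).card = d2 M e T v := by
    intro x hx v hv
    unfold d2 dg
    congr 1
    ext y
    simp only [Finset.mem_filter]
    exact ⟨fun h => ⟨hAM2 y h.1, h.2⟩, fun h => ⟨hin x hx v hv y h.1 h.2, h.2⟩⟩
  have hd2 : ∀ x ∈ QQ M e T, ∀ v ∈ e x, d2 M e T v ≤ 2 :=
    fun x hx v hv => b4 v (b1 x (hAM2 x hx) hv)
  have hge1 : ∀ x ∈ QQ M e T, ∀ v ∈ e x, 1 ≤ d2 M e T v := by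
    intro x hx v hv
    rw [← hd x hx v hv]
    exact Finset.card_pos.mpr ⟨x, Finset.mem_filter.mpr ⟨hx, hv⟩⟩
  have hex : ∀ x ∈ QQ M e T, ∃ v ∈ e x, d2 M e T v = 2 := by
    intro x hx
    by_contra hcon
    push Not at hcon
    apply hAL x hx
    unfold LL
    refine Finset.mem_filter.mpr ⟨hAM2 x hx, fun v hv => ?_⟩
    have h4 := hd2 x hx v hv
    have h5 := hge1 x hx v hv
    have h6 := hcon v hv
    omega
  obtain ⟨f, hf, hfs⟩ := h3 V (QQ M e T) (fun x y => x ≠ y ∧ (e x ∩ e y).Nonempty)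
    (fun x y h => ⟨fun h' => h.1 h'.symm, by rw [Finset.inter_comm]; exact h.2⟩)
    (fun x h => h.1 rfl)
    (fun x hx => by
      rw [QT_deg (QQ M e T) e (d2 M e T) hlin hd hd2 x hx]
      obtain ⟨v, hv, hv2⟩ := hex x hx
      exact ⟨Finset.card_pos.mpr ⟨v, Finset.mem_filter.mpr ⟨hv, hv2⟩⟩,
        le_trans (Finset.card_filter_le _ _) (hcard x hx).le⟩)
  have hsum : ∑ x ∈ QQ M e T, ((QQ M e T).filter
      (fun y => x ≠ y ∧ (e x ∩ e y).Nonempty)).card = 2 * eQ M e T := by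
    rw [Finset.sum_congr rfl (fun x hx => QT_deg (QQ M e T) e (d2 M e T) hlin hd hd2 x hx),
      QT_sum (QQ M e T) e (d2 M e T) hd]
    rfl
  obtain ⟨S, hS1, hS2⟩ := QT_pick (QQ M e T) e f
    (fun x hx => Finset.card_pos.mp (by rw [hcard x hx]; norm_num))
    (fun x hx => ⟨(hf x hx).1, (hf x hx).2.1, fun h => ((hf x hx).2.2 h).2⟩)
  refine ⟨S, hS1, ?_⟩
  rw [hsum] at hfs
  omega

end Pool.TD
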