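import Pool.Agent.Work.MP_f4e338_TD.Interface

/-! # Block SEV: elements of T7 touch exactly two edges of LL -/

set_option autoImplicit false

namespace Pool.TD

open Finset

/-- Block SEV. -/
theorem p_SEV (hBAS : Stmt_BAS) : Stmt_SEV := by
  intro V _ _ W M e T hHY hMIS
  obtain ⟨b1, -, b3, -, b5, -⟩ := hBAS V W M e T hHY hMIS
  have hLM2 : ∀ x ∈ LL M e T, x ∈ M2 M e T := fun x hx => (Finset.mem_filter.1 hx).1
  have hLM : ∀ x ∈ LL M e T, x ∈ M := fun x hx => (Finset.mem_filter.1 (hLM2 x hx)).1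
  have hc3 : ∀ x ∈ LL M e T, (e x).card = 3 := fun x hx => (hHY.1 x (hLM x hx)).2
  -- joined elements of T
  have hco : ∀ x ∈ LL M e T, ∀ v ∈ e x, (T.filter (fun t => Co M e t v)).card ≤ 2 := by
    intro x hx v hv
    have hvW : v ∈ W \ T := b1 x (hLM2 x hx) hv
    have h1 := b3 v hvW
    have h2 : d2 M e T v = 1 := (Finset.mem_filter.1 hx).2 v hv
    have h3 := hHY.2.2 v (Finset.mem_sdiff.1 hvW).1
    omega
  have hnbCo : ∀ t v, v ∈ nb M e t → Co M e t v := fun t v hv => (Finset.mem_filter.1 hv).2.2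
  refine ⟨?_, ?_⟩
  · intro t ht
    obtain ⟨htT, htV, ht2⟩ := Finset.mem_filter.1 ht
    have h6 : (nb M e t).card = 6 := (b5 t htT).2
    have htL : ∀ x ∈ tch M e T t, x ∈ LL M e T := fun x hx => (Finset.mem_filter.1 hx).1
    have hsub : nb M e t ⊆ (tch M e T t).biUnion fun x => e x ∩ nb M e t := by
      intro v hv
      have h1 := htV hv
      obtain ⟨x, hx, hvx⟩ := Finset.mem_biUnion.1 h1
      exact Finset.mem_biUnion.2 ⟨x, Finset.mem_filter.2 ⟨hx, ⟨v, Finset.mem_inter.2 ⟨hvx, hv⟩⟩⟩,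
        Finset.mem_inter.2 ⟨hvx, hv⟩⟩
    have hle : 6 ≤ ∑ x ∈ tch M e T t, (e x ∩ nb M e t).card := by
      rw [← h6]
      exact (Finset.card_le_card hsub).trans Finset.card_biUnion_le
    have hle3 : ∀ x ∈ tch M e T t, (e x ∩ nb M e t).card ≤ 3 := fun x hx => by
      rw [← hc3 x (htL x hx)]
      exact Finset.card_le_card Finset.inter_subset_left
    have hsum3 : ∑ x ∈ tch M e T t, (e x ∩ nb M e t).card ≤ ∑ _x ∈ tch M e T t, 3 :=
      Finset.sum_le_sum hle3
    rw [Finset.sum_const, smul_eq_mul] at hsum3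
    have hcard : (tch M e T t).card = 2 := by omega
    refine ⟨hcard, fun x hx => ?_⟩
    by_contra hcon
    have hlt : (e x ∩ nb M e t).card < 3 := by
      rw [← hc3 x (htL x hx)]
      apply Finset.card_lt_card
      refine ⟨Finset.inter_subset_left, fun h => hcon fun v hv => ?_⟩
      exact (Finset.mem_inter.1 (h hv)).2
    have h1 : ∑ x ∈ tch M e T t, (e x ∩ nb M e t).card < ∑ _x ∈ tch M e T t, 3 :=
      Finset.sum_lt_sum hle3 ⟨x, hx, hlt⟩
    rw [Finset.sum_const, smul_eq_mul, hcard] at h1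
    omega
  · intro x hx
    refine ⟨?_, ?_⟩
    · obtain ⟨v, hv⟩ : (e x).Nonempty := by
        rw [← Finset.card_pos, hc3 x hx]
        omega
      refine (Finset.card_le_card fun t ht => ?_).trans (hco x hx v hv)
      obtain ⟨h1, h2⟩ := Finset.mem_filter.1 ht
      exact Finset.mem_filter.2 ⟨h1, hnbCo t v (h2 hv)⟩
    · have hsub : (T.filter (fun t => x ∈ tch M e T t)) ⊆
          (e x).biUnion fun v => T.filter (fun t => Co M e t v) := by
        intro t ht
        obtain ⟨h1, h2⟩ := Finset.mem_filter.1 ht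
        obtain ⟨v, hv⟩ := (Finset.mem_filter.1 h2).2
        obtain ⟨hv1, hv2⟩ := Finset.mem_inter.1 hv
        exact Finset.mem_biUnion.2 ⟨v, hv1, Finset.mem_filter.2 ⟨h1, hnbCo t v hv2⟩⟩
      have h1 : ∑ v ∈ e x, (T.filter (fun t => Co M e t v)).card ≤ ∑ _v ∈ e x, 2 :=
        Finset.sum_le_sum fun v hv => hco x hx v hv
      rw [Finset.sum_const, smul_eq_mul, hc3 x hx] at h1
      exact ((Finset.card_le_card hsub).trans Finset.card_biUnion_le).trans h1

end Pool.TD
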