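import Pool.Agent.Work.MP_f4e338_TD.Interface

/-! # MP_f4e338_co, block SHR: shrinking the edges to three vertices -/

set_option autoImplicit false

namespace Pool.TD

open Finset

section
variable {V : Type} [Fintype V] [DecidableEq V]

/-- the admissible choices -/
def SHR_Adm (M : Finset V) (N e : V → Finset V) : Prop :=
  ∀ x ∈ M, e x ⊆ N x ∧ (e x).card = 3

theorem SHR_dg_le {M : Finset V} {N e : V → Finset V} (he : SHR_Adm M N e) (v : V) :
    dg M e v ≤ dg M N v := by
  unfold dg
  apply Finset.card_le_card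
  intro x hx
  rw [mem_filter] at hx ⊢
  exact ⟨hx.1, (he x hx.1).1 hx.2⟩

theorem SHR_HY {W M : Finset V} {N e : V → Finset V}
    (h1 : ∀ x ∈ M, N x ⊆ W ∧ 3 ≤ (N x).card)
    (h2 : ∀ x ∈ M, ∀ y ∈ M, x ≠ y → (N x ∩ N y).card ≤ 1)
    (h3 : ∀ v ∈ W, dg M N v ≤ 3) (he : SHR_Adm M N e) : HY W M e := by
  refine ⟨fun x hx => ⟨(he x hx).1.trans (h1 x hx).1, (he x hx).2⟩, ?_, ?_⟩
  · intro x hx y hy hxy
    exact (Finset.card_le_card (inter_subset_inter (he x hx).1 (he y hy).1)).trans
      (h2 x hx y hy hxy)
  · intro v hv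
    exact (SHR_dg_le he v).trans (h3 v hv)

/-- the number of pairs -/
theorem SHR_count (M C : Finset V) (e : V → Finset V) :
    ∑ c ∈ C, dg M e c = ∑ y ∈ M, (C ∩ e y).card := by
  have h := Finset.sum_card_bipartiteAbove_eq_sum_card_bipartiteBelow
    (s := C) (t := M) (fun (c y : V) => c ∈ e y)
  unfold Finset.bipartiteAbove Finset.bipartiteBelow at h
  unfold dg
  rw [h]
  apply Finset.sum_congr rfl
  intro y _
  rw [Finset.filter_mem_eq_inter]

theorem SHR_claim {W M : Finset V} {e : V → Finset V} {B : Finset V} (hB : Blk W M e B)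
    (hcard : ∀ y ∈ M, (e y).card = 3) {x w b : V} (hx : x ∈ M) (hxB : e x ⊆ B) (hwB : w ∉ B)
    (hb : b ∈ e x) {B' : Finset V}
    (hB' : Blk W M (Function.update e x (insert w ((e x).erase b))) B')
    (hdb : dg M (Function.update e x (insert w ((e x).erase b))) b ≠ 3) : Blk W M e B' := by
  set e' := Function.update e x (insert w ((e x).erase b)) with he'
  have ex : e' x = insert w ((e x).erase b) := by rw [he', Function.update_self]
  have ey : ∀ y, y ≠ x → e' y = e y := fun y hy => by rw [he', Function.update_of_ne hy]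
  have hbB' : b ∉ B' := fun h => hdb (hB'.2.2.1 b h)
  have hdis : ¬ (e' x ∩ B').Nonempty := by
    intro hne
    have hsub := hB'.2.2.2 x hx hne
    have hcnt := SHR_count M (B ∩ B') e'
    have hl : ∑ c ∈ B ∩ B', dg M e' c = 3 * (B ∩ B').card := by
      rw [Finset.sum_congr rfl (fun c hc => hB'.2.2.1 c (mem_inter.1 hc).2), Finset.sum_const,
        smul_eq_mul, mul_comm]
    have hxx : (B ∩ B' ∩ e' x).card = 2 := by
      have h1 : B ∩ B' ∩ e' x = (e x).erase b := by
        ext u
        rw [mem_inter, mem_inter, ex, mem_insert, mem_erase]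
        constructor
        · rintro ⟨⟨h1, _⟩, h3 | h3⟩
          · subst h3
            exact absurd h1 hwB
          · exact h3
        · intro h3
          refine ⟨⟨hxB h3.2, ?_⟩, Or.inr h3⟩
          apply hsub
          rw [ex, mem_insert, mem_erase]
          exact Or.inr h3
      rw [h1, Finset.card_erase_of_mem hb, hcard x hx]
    have hyy : ∀ y ∈ M.erase x, 3 ∣ (B ∩ B' ∩ e' y).card := by
      intro y hy
      rw [mem_erase] at hy
      by_cases hC : (B ∩ B' ∩ e' y).Nonempty
      · obtain ⟨u, hu⟩ := hC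
        rw [mem_inter, mem_inter] at hu
        have h1 : e y ⊆ B := hB.2.2.2 y hy.2
          ⟨u, mem_inter.2 ⟨by rw [← ey y hy.1]; exact hu.2, hu.1.1⟩⟩
        have h2 : e' y ⊆ B' := hB'.2.2.2 y hy.2 ⟨u, mem_inter.2 ⟨hu.2, hu.1.2⟩⟩
        have h3 : B ∩ B' ∩ e' y = e' y := by
          apply Finset.inter_eq_right.2
          apply subset_inter _ h2
          rw [ey y hy.1]
          exact h1
        rw [h3, ey y hy.1, hcard y hy.2]
      · rw [Finset.not_nonempty_iff_eq_empty] at hC
        rw [hC, Finset.card_empty]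
        exact dvd_zero 3
    rw [hl, ← Finset.add_sum_erase M _ hx, hxx] at hcnt
    have h3 := Finset.dvd_sum hyy
    omega
  have hmem : ∀ y ∈ M, ∀ c ∈ B', (c ∈ e' y ↔ c ∈ e y) := by
    intro y _ c hc
    by_cases hyx : y = x
    · subst hyx
      constructor
      · intro h
        exact absurd ⟨c, mem_inter.2 ⟨h, hc⟩⟩ hdis
      · intro h
        rw [ex, mem_insert, mem_erase]
        right
        refine ⟨?_, h⟩
        rintro rfl
        exact hbB' hc
    · rw [ey y hyx]
  refine ⟨hB'.1, hB'.2.1, ?_, ?_⟩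
  · intro c hc
    rw [← hB'.2.2.1 c hc]
    unfold dg
    congr 1
    apply Finset.filter_congr
    intro y hy
    exact (hmem y hy c hc).symm
  · rintro y hy ⟨c, hc⟩
    rw [mem_inter] at hc
    have h1 : c ∈ e' y := (hmem y hy c hc.2).2 hc.1
    have hyx : y ≠ x := by
      rintro rfl
      exact hdis ⟨c, mem_inter.2 ⟨h1, hc.2⟩⟩
    have h2 := hB'.2.2.2 y hy ⟨c, mem_inter.2 ⟨h1, hc.2⟩⟩
    rwa [ey y hyx] at h2

end

theorem p_SHR : Stmt_SHR := by
  intro V _ _ W M N h1 h2 h3
  classical
  -- an admissible choice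
  obtain ⟨e0, he0⟩ : ∃ e0 : V → Finset V, SHR_Adm M N e0 := by
    have hex : ∀ x, ∃ s : Finset V, x ∈ M → s ⊆ N x ∧ s.card = 3 := by
      intro x
      by_cases hx : x ∈ M
      · obtain ⟨s, hs, hc⟩ := Finset.exists_subset_card_eq (h1 x hx).2
        exact ⟨s, fun _ => ⟨hs, hc⟩⟩
      · exact ⟨∅, fun h => absurd h hx⟩
    choose e0 he0 using hex
    exact ⟨e0, fun x hx => he0 x hx⟩
  set μ : (V → Finset V) → ℕ := fun e => (univ.filter (fun B => Blk W M e B)).card with hμ
  obtain ⟨e, he, hmin⟩ := (measure μ).wf.has_min {e | SHR_Adm M N e} ⟨e0, he0⟩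
  refine ⟨e, fun x hx => (he x hx).1, SHR_HY h1 h2 h3 he, ?_⟩
  intro B hB x hx hxB
  by_contra hne
  have hsub : e x ⊆ B := hB.2.2.2 x hx hxB
  obtain ⟨w, hwN, hwe⟩ : ∃ w ∈ N x, w ∉ e x := by
    by_contra hcon
    push Not at hcon
    exact hne (Finset.Subset.antisymm hcon (he x hx).1)
  by_cases hwB : w ∈ B
  · have g1 := hB.2.2.1 w hwB
    have g2 := h3 w (hB.1 hwB)
    have g3 : insert x (M.filter (fun y => w ∈ e y)) ⊆ M.filter (fun y => w ∈ N y) := by
      intro y hy
      rw [mem_insert, mem_filter] at hy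
      rw [mem_filter]
      rcases hy with rfl | ⟨hy, hw⟩
      · exact ⟨hx, hwN⟩
      · exact ⟨hy, (he y hy).1 hw⟩
    have g4 := Finset.card_le_card g3
    rw [Finset.card_insert_of_notMem (by
      rw [mem_filter]
      exact fun h => hwe h.2)] at g4
    unfold dg at g1 g2
    omega
  · obtain ⟨b, hb⟩ : (e x).Nonempty := by
      rw [← Finset.card_pos, (he x hx).2]
      norm_num
    set e' := Function.update e x (insert w ((e x).erase b)) with he'
    have ex : e' x = insert w ((e x).erase b) := by rw [he', Function.update_self]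
    have ey : ∀ y, y ≠ x → e' y = e y := fun y hy => by rw [he', Function.update_of_ne hy]
    have hadm : SHR_Adm M N e' := by
      intro y hy
      by_cases hyx : y = x
      · subst hyx
        rw [ex]
        refine ⟨?_, ?_⟩
        · intro u hu
          rw [mem_insert, mem_erase] at hu
          rcases hu with rfl | hu
          · exact hwN
          · exact (he y hy).1 hu.2
        · rw [Finset.card_insert_of_notMem (fun h => hwe (mem_erase.1 h).2),
            Finset.card_erase_of_mem hb, (he y hy).2]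
      · rw [ey y hyx]
        exact he y hy
    have hdb : dg M e' b ≠ 3 := by
      have g1 := hB.2.2.1 b (hsub hb)
      have g2 : M.filter (fun y => b ∈ e' y) = (M.filter (fun y => b ∈ e y)).erase x := by
        ext y
        rw [mem_filter, mem_erase, mem_filter]
        by_cases hyx : y = x
        · subst hyx
          rw [ex, mem_insert, mem_erase]
          constructor
          · rintro ⟨_, h | h⟩
            · subst h
              exact absurd hb hwe
            · exact absurd rfl h.1
          · intro h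
            exact absurd rfl h.1
        · rw [ey y hyx]
          constructor
          · intro h
            exact ⟨hyx, h⟩
          · intro h
            exact h.2
      unfold dg at g1 ⊢
      rw [g2, Finset.card_erase_of_mem (mem_filter.2 ⟨hx, hb⟩), g1]
      norm_num
    apply hmin e' hadm
    change μ e' < μ e
    rw [hμ]
    apply Finset.card_lt_card
    rw [Finset.ssubset_iff_of_subset]
    · refine ⟨B, mem_filter.2 ⟨mem_univ _, hB⟩, ?_⟩
      intro h
      exact hdb ((mem_filter.1 h).2.2.2.1 b (hsub hb))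
    · intro B' hB'
      rw [mem_filter] at hB' ⊢
      exact ⟨mem_univ _, SHR_claim hB (fun y hy => (he y hy).2) hx hsub hwB hb hB'.2 hdb⟩

end Pool.TD
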