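import Pool.Agent.Work.MP_f4e338_TD.Interface

/-! # MP_f4e338_co, block UG of THEOREM TD: the unit of an element of Tg -/

set_option autoImplicit false

namespace Pool.TD

open Finset

theorem p_UG (_h1 : Stmt_BAS) : Stmt_UG := by
  intro V _ _ W M e T hy hm t ht
  unfold Tg at ht
  obtain ⟨htT, htV, ht3⟩ := Finset.mem_filter.mp ht
  have hdeg : (M.filter (fun x => t ∈ e x)).card = 3 := hm.2.1 t htT
  have hLLM2 : ∀ y ∈ LL M e T, y ∈ M2 M e T := fun y hy => (Finset.mem_filter.mp hy).1
  have hM2M : ∀ x ∈ M2 M e T, x ∈ M := fun x hx => (Finset.mem_filter.mp hx).1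
  have hM2d : ∀ x ∈ M2 M e T, Disjoint (e x) T := fun x hx => (Finset.mem_filter.mp hx).2
  have hnb : ∀ x ∈ M, t ∈ e x → ∀ v ∈ (e x).erase t, v ∈ nb M e t := by
    intro x hx htx v hv
    rw [Finset.mem_erase] at hv
    exact Finset.mem_filter.mpr ⟨Finset.mem_univ _, hv.1, x, hx, htx, hv.2⟩
  have hS2 : ∀ x ∈ M, t ∈ e x →
      2 ≤ ((LL M e T).filter (fun y => (e y ∩ (e x).erase t).Nonempty)).card := by
    intro x hx htx
    have hc : ((e x).erase t).card = 2 := by
      rw [Finset.card_erase_of_mem htx, (hy.1 x hx).2]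
    obtain ⟨v, w, hvw, hvw'⟩ := Finset.card_eq_two.mp hc
    have hv : v ∈ (e x).erase t := by rw [hvw']; simp
    have hw : w ∈ (e x).erase t := by rw [hvw']; simp
    obtain ⟨y, hyL, hvy⟩ := Finset.mem_biUnion.mp (htV (hnb x hx htx v hv))
    obtain ⟨z, hzL, hwz⟩ := Finset.mem_biUnion.mp (htV (hnb x hx htx w hw))
    have hyz : y ≠ z := by
      intro h
      subst h
      have hxy : x ≠ y := by
        intro h
        subst h
        exact Finset.disjoint_left.mp (hM2d x (hLLM2 x hyL)) htx htT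
      have h2 := hy.2.1 x hx y (hM2M y (hLLM2 y hyL)) hxy
      have h3 : ({v, w} : Finset V) ⊆ e x ∩ e y := by
        intro u hu
        rw [Finset.mem_insert, Finset.mem_singleton] at hu
        rcases hu with rfl | rfl
        · exact Finset.mem_inter.mpr ⟨Finset.mem_of_mem_erase hv, hvy⟩
        · exact Finset.mem_inter.mpr ⟨Finset.mem_of_mem_erase hw, hwz⟩
      have h4 := Finset.card_le_card h3
      rw [Finset.card_pair hvw] at h4
      omega
    have h5 : ({y, z} : Finset V) ⊆
        (LL M e T).filter (fun y => (e y ∩ (e x).erase t).Nonempty) := by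
      intro u hu
      rw [Finset.mem_insert, Finset.mem_singleton] at hu
      rcases hu with rfl | rfl
      · exact Finset.mem_filter.mpr ⟨hyL, v, Finset.mem_inter.mpr ⟨hvy, hv⟩⟩
      · exact Finset.mem_filter.mpr ⟨hzL, w, Finset.mem_inter.mpr ⟨hwz, hw⟩⟩
    have h6 := Finset.card_le_card h5
    rw [Finset.card_pair hyz] at h6
    exact h6
  have hcardι : Fintype.card {x // x ∈ M.filter (fun x => t ∈ e x)} = 3 := by
    rw [Fintype.card_coe, hdeg]
  have hHall : ∀ s : Finset {x // x ∈ M.filter (fun x => t ∈ e x)},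
      s.card ≤ (s.biUnion (fun x => (LL M e T).filter
        (fun y => (e y ∩ (e x.1).erase t).Nonempty))).card := by
    intro s
    rcases s.eq_empty_or_nonempty with rfl | ⟨x, hx⟩
    · simp
    · by_cases h3 : s.card ≤ 2
      · refine le_trans h3 ?_
        have hx' := Finset.mem_filter.mp x.2
        refine le_trans (hS2 x.1 hx'.1 hx'.2) (Finset.card_le_card ?_)
        exact Finset.subset_biUnion_of_mem (fun x : {x // x ∈ M.filter (fun x => t ∈ e x)} =>
          (LL M e T).filter (fun y => (e y ∩ (e x.1).erase t).Nonempty)) hx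
      · have h4 : s = Finset.univ := by
          apply Finset.eq_univ_of_card
          have h5 := Finset.card_le_univ s
          omega
        have h6 : s.card ≤ 3 := by
          have h5 := Finset.card_le_univ s
          omega
        refine le_trans h6 (le_trans ht3 (Finset.card_le_card ?_))
        intro y hy'
        unfold tch at hy'
        obtain ⟨hyL, w, hw⟩ := Finset.mem_filter.mp hy'
        rw [Finset.mem_inter] at hw
        obtain ⟨-, hwt, x, hxM, htx, hwx⟩ := Finset.mem_filter.mp hw.2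
        refine Finset.mem_biUnion.mpr ⟨⟨x, Finset.mem_filter.mpr ⟨hxM, htx⟩⟩, ?_, ?_⟩
        · rw [h4]
          exact Finset.mem_univ _
        · exact Finset.mem_filter.mpr ⟨hyL, w, Finset.mem_inter.mpr
            ⟨hw.1, Finset.mem_erase.mpr ⟨hwt, hwx⟩⟩⟩
  obtain ⟨f, hfi, hf⟩ := (Finset.all_card_le_biUnion_card_iff_exists_injective _).mp hHall
  have hz : ∀ x : {x // x ∈ M.filter (fun x => t ∈ e x)}, ∃ z, z ∈ e (f x) ∩ (e x.1).erase t :=
    fun x => (Finset.mem_filter.mp (hf x)).2
  choose z hz using hz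
  refine ⟨Finset.univ.image f, Finset.univ.image z, ?_, ?_, ?_, ?_, ?_⟩
  · intro y hy'
    obtain ⟨x, -, rfl⟩ := Finset.mem_image.mp hy'
    have hx' := Finset.mem_filter.mp x.2
    have h7 := Finset.mem_inter.mp (hz x)
    exact Finset.mem_filter.mpr ⟨(Finset.mem_filter.mp (hf x)).1, z x,
      Finset.mem_inter.mpr ⟨h7.1, hnb x.1 hx'.1 hx'.2 _ h7.2⟩⟩
  · rw [Finset.card_image_of_injective _ hfi, Finset.card_univ, hcardι]
  · refine le_trans Finset.card_image_le ?_
    rw [Finset.card_univ, hcardι]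
  · intro y hy'
    obtain ⟨x, -, rfl⟩ := Finset.mem_image.mp hy'
    exact ⟨z x, Finset.mem_inter.mpr ⟨(Finset.mem_inter.mp (hz x)).1,
      Finset.mem_image_of_mem _ (Finset.mem_univ _)⟩⟩
  · intro x hxM htx
    have h8 := Finset.mem_inter.mp (hz ⟨x, Finset.mem_filter.mpr ⟨hxM, htx⟩⟩)
    exact ⟨_, Finset.mem_inter.mpr ⟨Finset.mem_of_mem_erase h8.2,
      Finset.mem_image_of_mem _ (Finset.mem_univ _)⟩⟩

end Pool.TD
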