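import Mathlib

/-! # MP_f4e338_co: total domination of graphs without 4-cycles, strictly below n/2 (helper7)

THEOREM. Every connected graph G without 4-cycles, of order n, with minimum degree at least 3 and
not isomorphic to the generalised Petersen graph GP(8,3) (the Moebius-Kantor graph) has a total
dominating set with at most (1/2 - 1/500) n vertices.

(Known: at most n/2, Chvatal and McDiarmid, Tuza; conjectured: at most 8n/17.)

OVERVIEW. V is the vertex set, N v the neighbourhood of v. A total dominating set is a set which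
meets all N x (the edge x is the set N x; the graph gives a hypergraph with n vertices and n edges,
any two edges have at most one common vertex).
(1) P1: a set T1 such that the set R = Hit N T1 of the edges which meet T1 has at least 4 |T1|
elements and every vertex outside T1 lies in at most three edges not in R.
(2) SHR: in the other edges (M = V minus R) choose three vertices e x of N x: a linear 3-uniform
hypergraph (W, M, e) of maximum degree at most 3, W = V minus T1 (predicate HY).
(3) MIS: in it choose a maximal set T of vertices of degree 3, no two in a common edge. The edges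
not met by T (set M2) form a hypergraph of maximum degree at most 2; LL are its isolated edges
(single edges, all of whose three vertices have degree 1 there), QQ the others. QQ is treated by a
matching (MAT, QT). The edges of LL can be hit by any of their three vertices; this freedom is used
to delete vertices of T (units: UG, UP; packing: PK). What cannot be treated are the blocks
(Blk: 8 vertices, closed, all degrees 3, i.e. the Moebius-Kantor configuration 8_3; block T8).
(4) BB: there are at most 3 |W| - 3 |M| blocks, if the graph has no Closed pair; Closed pairs give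
the Moebius-Kantor graph (FINA, FINB, FINC).
P2 and MAIN put the numbers together.

RULES. Block X is the theorem `p_X (h1 : Stmt_U) (h2 : Stmt_V) ... : Stmt_X`, the hypotheses are the
blocks of the column uses of table tdn_blocks, in that order. File
Pool/Agent/Work/MP_f4e338_TD/B_X.lean, import Pool.Agent.Work.MP_f4e338_TD.Interface, namespace
Pool.TD, private lemmas have names beginning with X_.
All filters below are over decidable predicates; if `decide`-instances do not unify use
`Finset.filter_congr_decidable` or `convert`. -/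

set_option autoImplicit false

namespace Pool.TD

open Finset

section defs
variable {V : Type} [Fintype V] [DecidableEq V]

/-- The neighbourhoods of a graph without 4-cycles and with minimum degree at least 3. -/
def Nb (N : V → Finset V) : Prop :=
  (∀ x y, x ∈ N y ↔ y ∈ N x) ∧ (∀ x, x ∉ N x) ∧ (∀ x, 3 ≤ (N x).card) ∧
  ∀ x y, x ≠ y → (N x ∩ N y).card ≤ 1

/-- The (indices of the) sets N x which meet T. -/
def Hit (N : V → Finset V) (T : Finset V) : Finset V :=
  Finset.univ.filter (fun x => (N x ∩ T).Nonempty)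

/-- The degree of v in the family (e x), x in M. -/
def dg (M : Finset V) (e : V → Finset V) (v : V) : ℕ := (M.filter (fun x => v ∈ e x)).card

/-- Linear 3-uniform hypergraph with vertex set W and edges e x, x in M, all degrees at most 3. -/
def HY (W M : Finset V) (e : V → Finset V) : Prop :=
  (∀ x ∈ M, e x ⊆ W ∧ (e x).card = 3) ∧
  (∀ x ∈ M, ∀ y ∈ M, x ≠ y → (e x ∩ e y).card ≤ 1) ∧
  ∀ v ∈ W, dg M e v ≤ 3

/-- B is a block: 8 vertices of degree 3, all edges which meet B are contained in B. -/
def Blk (W M : Finset V) (e : V → Finset V) (B : Finset V) : Prop :=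
  B ⊆ W ∧ B.card = 8 ∧ (∀ b ∈ B, dg M e b = 3) ∧
  ∀ x ∈ M, (e x ∩ B).Nonempty → e x ⊆ B

/-- t and v lie in a common edge. -/
def Co (M : Finset V) (e : V → Finset V) (t v : V) : Prop := ∃ x ∈ M, t ∈ e x ∧ v ∈ e x

instance (M : Finset V) (e : V → Finset V) (t v : V) : Decidable (Co M e t v) := by
  unfold Co; infer_instance

/-- T is a maximal set of vertices of degree 3 no two of which lie in a common edge. -/
def MIS (W M : Finset V) (e : V → Finset V) (T : Finset V) : Prop :=
  T ⊆ W ∧ (∀ t ∈ T, dg M e t = 3) ∧ (∀ t ∈ T, ∀ s ∈ T, t ≠ s → ¬ Co M e t s) ∧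
  ∀ v ∈ W, dg M e v = 3 → v ∉ T → ∃ t ∈ T, Co M e t v

/-- The edges not met by T. -/
def M2 (M : Finset V) (e : V → Finset V) (T : Finset V) : Finset V :=
  M.filter (fun x => Disjoint (e x) T)

/-- Number of edges at v which are not met by T. -/
def d2 (M : Finset V) (e : V → Finset V) (T : Finset V) (v : V) : ℕ := dg (M2 M e T) e v

/-- The isolated edges among those not met by T. -/
def LL (M : Finset V) (e : V → Finset V) (T : Finset V) : Finset V :=
  (M2 M e T).filter (fun x => ∀ v ∈ e x, d2 M e T v = 1)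

/-- The other edges not met by T. -/
def QQ (M : Finset V) (e : V → Finset V) (T : Finset V) : Finset V := M2 M e T \ LL M e T

/-- The vertices of the edges of LL. -/
def VL (M : Finset V) (e : V → Finset V) (T : Finset V) : Finset V := (LL M e T).biUnion e

/-- The vertices of the edges of QQ. -/
def VQ (M : Finset V) (e : V → Finset V) (T : Finset V) : Finset V := (QQ M e T).biUnion e

/-- The vertices outside T all of whose edges are met by T. -/
def II (W M : Finset V) (e : V → Finset V) (T : Finset V) : Finset V :=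
  (W \ T).filter (fun v => d2 M e T v = 0)

/-- The number of vertices of VQ which lie in two edges of QQ. -/
def eQ (M : Finset V) (e : V → Finset V) (T : Finset V) : ℕ :=
  ((VQ M e T).filter (fun v => d2 M e T v = 2)).card

/-- The vertices different from t which lie in a common edge with t. -/
def nb (M : Finset V) (e : V → Finset V) (t : V) : Finset V :=
  Finset.univ.filter (fun v => v ≠ t ∧ Co M e t v)

/-- The edges of LL touched by t. -/
def tch (M : Finset V) (e : V → Finset V) (T : Finset V) (t : V) : Finset V :=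
  (LL M e T).filter (fun x => (e x ∩ nb M e t).Nonempty)

/-- Elements of T with a neighbour outside VL. -/
def Tb (M : Finset V) (e : V → Finset V) (T : Finset V) : Finset V :=
  T.filter (fun t => ¬ nb M e t ⊆ VL M e T)

/-- Elements of T with all neighbours in VL, touching at least three edges of LL. -/
def Tg (M : Finset V) (e : V → Finset V) (T : Finset V) : Finset V :=
  T.filter (fun t => nb M e t ⊆ VL M e T ∧ 3 ≤ (tch M e T t).card)

/-- Elements of T with all neighbours in VL, touching at most two edges of LL. -/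
def T7 (M : Finset V) (e : V → Finset V) (T : Finset V) : Finset V :=
  T.filter (fun t => nb M e t ⊆ VL M e T ∧ (tch M e T t).card ≤ 2)

/-- Elements of T7 which share both edges with another one. -/
def T8 (M : Finset V) (e : V → Finset V) (T : Finset V) : Finset V :=
  (T7 M e T).filter (fun t => ∃ s ∈ T7 M e T, s ≠ t ∧ tch M e T s = tch M e T t)

/-- Elements of T7 which share exactly one edge with another one. -/
def Tp (M : Finset V) (e : V → Finset V) (T : Finset V) : Finset V :=
  (T7 M e T).filter (fun t => ∃ s ∈ T7 M e T, s ≠ t ∧ (tch M e T s ∩ tch M e T t).card = 1)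

/-- Elements of T7 which share no edge with another element of T7. -/
def Ts (M : Finset V) (e : V → Finset V) (T : Finset V) : Finset V :=
  (T7 M e T).filter (fun t => ∀ s ∈ T7 M e T, s ≠ t → Disjoint (tch M e T s) (tch M e T t))

/-- A closed pair of sets of eight vertices. -/
def Closed (N : V → Finset V) (A B : Finset V) : Prop :=
  A.card = 8 ∧ B.card = 8 ∧ (∀ a ∈ A, N a ⊆ B ∧ (N a).card = 3) ∧
  ∀ b ∈ B, N b ⊆ A ∧ (N b).card = 3

end defs

/-- The generalised Petersen graph GP(8,3), exactly as in S12403. -/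
abbrev MK : SimpleGraph (Bool × ZMod 8) :=
  SimpleGraph.fromRel (fun a b : Bool × ZMod 8 =>
          (a.1 = false ∧ b.1 = false ∧ b.2 = a.2 + 1) ∨
          (a.1 = false ∧ b.1 = true ∧ b.2 = a.2) ∨
          (a.1 = true ∧ b.1 = true ∧ b.2 = a.2 + 3))

/-! ## Part 1: the graph -/

/-- C4 (60 lines). A graph without cycles of length 4 and with all degrees at least 3 satisfies Nb.
PROOF. Only the last clause needs an argument: if x ≠ y and u ≠ v both lie in N x ∩ N y then
x - u - y - v - x is a cycle of length 4 (u, v are different from x and y, since they are adjacent to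
both). Walk: Walk.cons hxu (Walk.cons huy (Walk.cons hyv (Walk.cons hvx Walk.nil))), IsCycle: use
SimpleGraph.Walk.isCycle_def or cons_isCycle_iff, simp and the inequalities. -/
def Stmt_C4 : Prop :=
  ∀ (V : Type) [Fintype V] [DecidableEq V] (G : SimpleGraph V) [DecidableRel G.Adj],
    (∀ v : V, 3 ≤ G.degree v) →
    (∀ (v : V) (p : G.Walk v v), p.IsCycle → p.length ≠ 4) →
    Nb (fun v => G.neighborFinset v)

/-- P1 (150 lines). Phase one.
PROOF. Let n = |V| and for T ⊆ V let F(T) = (n + 1) (|Hit N T| - 3 |T|) - |T|, an integer. Let T1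
maximise F over all T (univ.powerset). By the symmetry of N: x ∈ Hit N (insert v T) iff x ∈ Hit N T
or x ∈ N v, so |Hit N (insert v T)| = |Hit N T| + |N v \ Hit N T|.
(a) If v ∉ T1 and k = |N v \ Hit N T1| ≥ 4 then F(insert v T1) - F(T1) = (n + 1)(k - 3) - 1 ≥ n > 0
(V is not empty), a contradiction.
(b) For t ∈ T1 let P t be the set of the x with N x ∩ T1 = {t}. Hit N (T1 \ {t}) = Hit N T1 \ P t, so
F(T1 \ {t}) - F(T1) = (n + 1)(3 - |P t|) + 1 ≤ 0, hence |P t| ≥ 4. As P t ⊆ N t, also |N t| ≥ 4. The
sets P t, t ∈ T1, are pairwise disjoint subsets of Hit N T1, so |Hit N T1| ≥ 4 |T1|. -/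
def Stmt_P1 : Prop :=
  ∀ (V : Type) [Fintype V] [DecidableEq V] (N : V → Finset V), Nb N →
    ∃ T1 : Finset V, 4 * T1.card ≤ (Hit N T1).card ∧ (∀ t ∈ T1, 4 ≤ (N t).card) ∧
      ∀ v, v ∉ T1 → (N v \ Hit N T1).card ≤ 3

/-- SHR (200 lines). Shrinking the edges to three vertices such that blocks have only full edges.
PROOF. Consider the functions e with e x ⊆ N x and |e x| = 3 for x ∈ M, e x = ∅ for x ∉ M (there is
one; the set of these functions is finite and not empty). For each of them (W, M, e) satisfies HY: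
e x ⊆ N x ⊆ W, e x ∩ e y ⊆ N x ∩ N y, dg M e v ≤ dg M N v ≤ 3. Choose e such that the number of the
sets B with Blk W M e B is as small as possible (Set.ncard, or filter on univ : Finset (Finset V)
with classical decidability).
Let B be a block for e, x ∈ M, e x ∩ B ≠ ∅, so e x ⊆ B. Suppose w ∈ N x, w ∉ e x.
Case w ∈ B. Then dg M N w ≥ dg M e w + 1 = 4 (the edges y with w ∈ e y and the edge x), but w ∈ W.
Case w ∉ B. Let b ∈ e x, e' = e except e' x = insert w (e x \ {b}). e' is again admissible. B is a
block for e and not for e' (dg M e' b = 2). CLAIM: every block B' for e' is a block for e; this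
contradicts the minimality. We have dg M e' b = 2, so b ∉ B'. Suppose e' x ∩ B' ≠ ∅. Then e' x ⊆ B'.
Let C = B ∩ B'. For y ∈ M, y ≠ x with e y ∩ C ≠ ∅ we have e y ⊆ B (block for e) and e y ⊆ B' (block
for e'), so e y ⊆ C; and e' x ∩ C = e x \ {b} has two elements (w ∉ B, e x ⊆ B). Counting pairs:
3 |C| = sum over c ∈ C of dg M e' c = sum over y ∈ M of |e' y ∩ C| = 3 (number of such y) + 2,
impossible mod 3. So e' x ∩ B' = ∅, hence e x ∩ B' = ∅ (e x ⊆ insert b (e' x), b ∉ B'). So on B' the
families e and e' have the same edges: dg M e c = dg M e' c for c ∈ B', and e y ∩ B' ≠ ∅ implies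
y ≠ x, e y = e' y ⊆ B'. So B' is a block for e. -/
def Stmt_SHR : Prop :=
  ∀ (V : Type) [Fintype V] [DecidableEq V] (W M : Finset V) (N : V → Finset V),
    (∀ x ∈ M, N x ⊆ W ∧ 3 ≤ (N x).card) →
    (∀ x ∈ M, ∀ y ∈ M, x ≠ y → (N x ∩ N y).card ≤ 1) →
    (∀ v ∈ W, dg M N v ≤ 3) →
    ∃ e : V → Finset V, (∀ x ∈ M, e x ⊆ N x) ∧ HY W M e ∧
      ∀ B, Blk W M e B → ∀ x ∈ M, (e x ∩ B).Nonempty → N x = e x

/-- BB (150 lines). The number of disjoint blocks is at most 3 |W| - 3 |M|.
PROOF. Write R = Hit N T1, W = univ \ T1, M = univ \ R. For v ∈ W let c1 v = 3 - |N v \ R| ≥ 0, for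
x ∈ M let c2 x = |N x| - 3 ≥ 0. If x ∈ M then N x ⊆ W (x is not hit). Counting the pairs (v, x) with
x ∈ M, v ∈ N x (equivalently v ∈ W, x ∈ N v \ R):
sum_{v ∈ W} |N v \ R| = sum_{x ∈ M} |N x|, that is 3 |W| = 3 |M| + sum_{W} c1 + sum_{M} c2.
For a block B let A B = {x ∈ M : e x ∩ B ≠ ∅}. For x ∈ A B: e x ⊆ B, N x = e x, |N x| = 3. Counting
pairs, 3 |A B| = sum_{b ∈ B} dg M e b = 24, so |A B| = 8. A B ⊆ W: an element t of T1 has |N t| ≥ 4.
For b ∈ B we have b ∈ N x for exactly the three x ∈ A B with b ∈ e x, so these three lie in N b.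
CLAIM: sum_{x ∈ A B} c1 x + sum_{b ∈ B ∩ M} c2 b ≥ 1. If some b ∈ B lies in R take x ∈ A B with
b ∈ e x = N x (exists, dg M e b = 3): c1 x = 3 - |N x \ R| ≥ 1. Otherwise B ⊆ M. If |N b| = 3 for all
b ∈ B then N b is contained in A B for all b ∈ B and Closed N (A B) B, excluded. So |N b| ≥ 4 for
some b ∈ B, c2 b ≥ 1.
For different blocks of the disjoint family the sets B are disjoint and so are the sets A B
(∅ ≠ e x ⊆ B). Summing the claim over the blocks: number of blocks ≤ sum c1 + sum c2
= 3 |W| - 3 |M|. -/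
def Stmt_BB : Prop :=
  ∀ (V : Type) [Fintype V] [DecidableEq V] (N : V → Finset V) (T1 : Finset V)
    (e : V → Finset V) (BF : Finset (Finset V)), Nb N →
    (∀ t ∈ T1, 4 ≤ (N t).card) →
    (∀ v, v ∉ T1 → (N v \ Hit N T1).card ≤ 3) →
    (∀ x ∈ univ \ Hit N T1, e x ⊆ N x) →
    HY (univ \ T1) (univ \ Hit N T1) e →
    (∀ B, Blk (univ \ T1) (univ \ Hit N T1) e B →
      ∀ x ∈ univ \ Hit N T1, (e x ∩ B).Nonempty → N x = e x) →
    (∀ A B, ¬ Closed N A B) →
    (∀ B ∈ BF, Blk (univ \ T1) (univ \ Hit N T1) e B) →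
    (∀ B ∈ BF, ∀ C ∈ BF, B ≠ C → Disjoint B C) →
    BF.card + 3 * (univ \ Hit N T1).card ≤ 3 * (univ \ T1).card

/-- FINA (250 lines). A closed pair is the Moebius-Kantor configuration, with cyclic labels.
PROOF. Work with the 8 lines N a, a ∈ A, on the 8 points of B. Every point b lies on exactly three
lines (the a ∈ N b; a ∈ N b iff b ∈ N a), two lines have at most one common point, so b is joined to
exactly 6 other points and there is exactly one point b* ∈ B \ {b} not on a line with b; b** = b.
Fix b0 ∈ B, b4 = b0*. The lines at b0 are {b0, x_i, y_i}, i = 0, 1, 2; all lines at b4 avoid b0 and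
consist of b4 and two of the six points x_i, y_i; two lines E, F are left; they contain neither b0
nor b4, each point x_i, y_i lies on three lines: one at b0, one at b4 (it is joined to b4, as its
point * is not b4), one of E, F. So E and F are disjoint with union the six points, and each
contains exactly one of x_i, y_i for every i (linearity): name them E = {u_0, u_1, u_2},
F = {v_0, v_1, v_2} with {b0, u_i, v_i} lines. The lines at b4 are {b4, u_i, v_(s i)} (two points of
E, or of F, are already on E), s a permutation without fixed point (linearity), so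
s i = i + 1 for all i or s i = i - 1 for all i; in the second case exchange the names 1, 2 of the
u's and of the v's, then s i = i + 1.
Labels: beta 0 = b0, beta 4 = b4, beta 3 = u_0, beta 5 = u_1, beta 2 = u_2, beta 1 = v_0,
beta 6 = v_1, beta 7 = v_2. Then the lines are {0,1,3}, {0,5,6}, {0,2,7} (at b0), {4,3,6} (u_0 v_1),
{4,5,7} (u_1 v_2), {4,2,1} (u_2 v_0), E = {3,5,2}, F = {1,6,7}: exactly the sets {j, j+1, j+3} mod 8,
j = 0, 5, 7, 3, 4, 1, 2, 6. Let alpha j be the a ∈ A with N a = that line (unique since lines have at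
most one common point). -/
def Stmt_FINA : Prop :=
  ∀ (V : Type) [Fintype V] [DecidableEq V] (N : V → Finset V) (A B : Finset V), Nb N →
    Closed N A B → ∃ al be : ZMod 8 → V, Function.Injective al ∧ Function.Injective be ∧
      (∀ j, al j ∈ A ∧ be j ∈ B) ∧ ∀ j, N (al j) = {be j, be (j + 1), be (j + 3)}

/-- FINB (120 lines). No loopless polarity.
PROOF. Let al j = be (s j), s : ZMod 8 → ZMod 8 is injective, so bijective; let t = s⁻¹, D = {0,1,3}.
Then be a = al (t a), so be b ∈ N (be a) iff b - t a ∈ D. Symmetry of N: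
(1) b - t a ∈ D iff a - t b ∈ D; no loops: (2) a - t a ∉ D.
(3) t (a + 4) = t a + 4: the sets N (be a) and N (be (a+4)) are t a + D and t (a + 4) + D. They are
disjoint: if c lies in both then c - t a ∈ D, so a - t c ∈ D and a + 4 - t c ∈ D, but 4 is not a
difference of elements of D. Two translates of D by p, q are disjoint only if p = q + 4 (D - D =
{0, ±1, ±2, ±3}). So t is given by t 0, t 1, t 2, t 3, and the finite check below (4096 functions, or
by hand) finishes; found by computer: there is no permutation t with (1) and (2).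
By hand: mod 4, D = {0,1,3}; let o a = t a + 2 mod 4 (well defined on ZMod 4 by (3)). (1) says
b = o a iff a = o b mod 4. For a, b mod 4 with b ≠ o a exactly one of b - t a, b + 4 - t a lies in D
(take representatives a, b ∈ {0,1,2,3}); w a b = 1 in the first case, -1 in the second, and
w a (o a) = 0. By (1) and (3) w is symmetric; by (2) w a a ∈ {0, -1}. Two rows a ≠ b of w are
orthogonal: the translates t a + D and t b + D (t b - t a ≠ 0, 4) have exactly one common point, and
t a + D, t b + 4 + D also. If o = id then w has zero diagonal and entries ±1 elsewhere; orthogonality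
of rows a, b gives w a c w c b w b d w d a = -1 for {a,b,c,d} = {0,1,2,3}; the product of the three
relations (4-cycles 0-2-1-3, 0-1-2-3, 0-1-3-2) is 1, each w a b occurring twice: contradiction. If
o 0 = 1, o 1 = 0 (say) and o 2 = 2, o 3 = 3: rows 0 and 2: - w02 + w03 w23 = 0, rows 1 and 2:
- w12 + w13 w23 = 0, rows 2 and 3: w02 w03 + w12 w13 = 0: from the first two w02 w03 = w23 = w12 w13,
contradiction. If o has two transpositions, o 0 = 1, o 2 = 3: rows 0 and 2: - w02 - w02 = 0,
contradiction. A finite `decide` over (t 0, t 1, t 2, t 3) is probably shorter. -/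
def Stmt_FINB : Prop :=
  ∀ (V : Type) [Fintype V] [DecidableEq V] (N : V → Finset V) (al be : ZMod 8 → V), Nb N →
    Function.Injective al → Function.Injective be →
    (∀ j, N (al j) = {be j, be (j + 1), be (j + 3)}) → (∀ j, ∃ i, al j = be i) → False

/-- FINC (120 lines). The incidence graph of the configuration {j, j+1, j+3} mod 8 is GP(8,3).
PROOF. Vertices: be j, al j (16 different ones). al j is adjacent exactly to be j, be (j+1),
be (j+3), no two be's are adjacent, so be j is adjacent exactly to al j, al (j-1), al (j-3).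
An isomorphism from MK: outer vertices (false, i), i = 0..7, go to
be 0, al 0, be 1, al 1, be 4, al 4, be 5, al 5;
inner vertices (true, i), i = 0..7, go to al 7, be 3, al 6, be 2, al 3, be 7, al 2, be 6
(checked by computer). Build the bijection phi : Bool × ZMod 8 → Bool × ZMod 8 (true for al) by a
table and check by `decide` that MK.Adj p q iff phi p, phi q are related by the incidence relation
r p q := (p.1 = true ∧ q.1 = false ∧ (q.2 - p.2 = 0 ∨ q.2 - p.2 = 1 ∨ q.2 - p.2 = 3)) or the same
with p, q exchanged; then transport to V. -/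
def Stmt_FINC : Prop :=
  ∀ (V : Type) [Fintype V] [DecidableEq V] (G : SimpleGraph V) [DecidableRel G.Adj]
    (al be : ZMod 8 → V), Function.Injective al → Function.Injective be →
    (∀ i j, al i ≠ be j) → (∀ v, (∃ j, v = al j) ∨ ∃ j, v = be j) →
    (∀ j, G.neighborFinset (al j) = {be j, be (j + 1), be (j + 3)}) →
    (∀ i j, ¬ G.Adj (be i) (be j)) → Nonempty (G ≃g MK)

/-- NC (80 lines). In a connected graph which is not MK there is no closed pair. Uses FINA, FINB,
FINC.
PROOF. Let Closed N A B, N = neighborFinset. The set A ∪ B is closed under neighbours (N a ⊆ B,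
N b ⊆ A) and not empty, so by connectedness A ∪ B = univ. Take al, be from FINA; al maps onto A and
be onto B (8 elements each). If A ∩ B ≠ ∅: A ∩ B is also closed under neighbours (v ∈ A ∩ B:
N v ⊆ B and N v ⊆ A), so A ∩ B = univ and FINB gives a contradiction (al j ∈ B = range of be).
So A ∩ B = ∅, no two elements of B are adjacent (N b ⊆ A), FINC gives G ≃g MK. -/
def Stmt_NC : Prop :=
  ∀ (V : Type) [Fintype V] [DecidableEq V] (G : SimpleGraph V) [DecidableRel G.Adj],
    G.Connected → Nb (fun v => G.neighborFinset v) → IsEmpty (G ≃g MK) →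
    ∀ A B, ¬ Closed (fun v => G.neighborFinset v) A B

/-! ## Part 2: linear 3-uniform hypergraphs of maximum degree at most 3 -/

/-- MIS (30 lines). Such a T exists: take one of maximal cardinality among the subsets T of W with
the second and third property. -/
def Stmt_MIS : Prop :=
  ∀ (V : Type) [Fintype V] [DecidableEq V] (W M : Finset V) (e : V → Finset V), HY W M e →
    ∃ T, MIS W M e T

/-- BAS (150 lines). Basic facts.
PROOF. (1) immediate. (2) An edge which is met by T contains exactly one element of T (two elements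
of T do not lie in a common edge). (3) Let v ∈ W \ T. The map from the edges x ∈ M \ M2 with v ∈ e x
to the element of T in e x is a bijection onto {t ∈ T : Co M e t v}: it is injective by linearity
(two common vertices t, v). So |{t ∈ T : Co}| + d2 v = dg v. (4) If dg v = 3 then some t ∈ T has
Co M e t v (maximality), so by (3) d2 v ≤ 2; if dg v ≤ 2 then d2 v ≤ dg v ≤ 2. (5) For t ∈ T, the
three edges at t have 6 further vertices, different by linearity; they are not in T.
(6) If x ∈ LL, y ∈ M2 and v ∈ e x ∩ e y then d2 v = 1 forces x = y. -/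
def Stmt_BAS : Prop :=
  ∀ (V : Type) [Fintype V] [DecidableEq V] (W M : Finset V) (e : V → Finset V) (T : Finset V),
    HY W M e → MIS W M e T →
    (∀ x ∈ M2 M e T, e x ⊆ W \ T) ∧
    (∀ x ∈ M, x ∉ M2 M e T → ∃ t ∈ T, t ∈ e x ∧ ∀ s ∈ T, s ∈ e x → s = t) ∧
    (∀ v ∈ W \ T, (T.filter (fun t => Co M e t v)).card + d2 M e T v = dg M e v) ∧
    (∀ v ∈ W \ T, d2 M e T v ≤ 2) ∧
    (∀ t ∈ T, nb M e t ⊆ W \ T ∧ (nb M e t).card = 6) ∧
    (∀ x ∈ LL M e T, ∀ y ∈ M2 M e T, x ≠ y → Disjoint (e x) (e y))

/-- CNT (150 lines). The three counting identities. Uses BAS.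
PROOF. (1) M is the disjoint union of M2 = LL ∪ QQ and of the sets {x ∈ M : t ∈ e x}, t ∈ T, of three
elements each. (2) W is the disjoint union of T, II, VL, VQ: a vertex v ∈ W \ T with d2 v ≥ 1 lies in
an edge of M2; it lies in VL iff it lies in an edge of LL, and then d2 v = 1 and it is in no edge of
QQ. |VL| = 3 |LL| because the edges of LL are pairwise disjoint. (3) Count the pairs (v, x), x ∈ QQ,
v ∈ e x: 3 |QQ| = sum over v ∈ VQ of d2 v (all edges of M2 at v ∈ VQ are in QQ) and d2 v ∈ {1, 2}. -/
def Stmt_CNT : Prop :=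
  ∀ (V : Type) [Fintype V] [DecidableEq V] (W M : Finset V) (e : V → Finset V) (T : Finset V),
    HY W M e → MIS W M e T →
    M.card = 3 * T.card + (LL M e T).card + (QQ M e T).card ∧
    W.card = T.card + (II W M e T).card + 3 * (LL M e T).card + (VQ M e T).card ∧
    (VQ M e T).card + eQ M e T = 3 * (QQ M e T).card

/-- SLT (150 lines). The two slot inequalities. Uses BAS, CNT.
PROOF. Count the pairs (t, v) with t ∈ T, v ∈ nb t: for fixed t there are 6 (BAS), for fixed
v ∈ W \ T there are dg v - d2 v (BAS).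
(1) The pairs with v ∈ VL (d2 v = 1): sum over v ∈ VL of (dg v - 1) ≤ 6 |T|, and
sum over v ∈ VL of dg v ≥ 3 |VL| - sum over v ∈ W of (3 - dg v) = 9 |LL| - 3 |W| + 3 |M|
(sum over W of dg = 3 |M|). So 6 |LL| + 3 |M| ≤ 6 |T| + 3 |W|.
(2) Every t ∈ Tb has a neighbour v ∈ nb t outside VL; v ∈ W \ T, so v ∈ II ∪ VQ (proof of CNT). So
|Tb| ≤ sum over v ∈ II ∪ VQ of (dg v - d2 v) ≤ 3 |II| + sum over v ∈ VQ of (3 - d2 v) =
3 |II| + 3 |VQ| - 3 |QQ| = 3 |II| + 6 |QQ| - 3 eQ. -/
def Stmt_SLT : Prop :=
  ∀ (V : Type) [Fintype V] [DecidableEq V] (W M : Finset V) (e : V → Finset V) (T : Finset V),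
    HY W M e → MIS W M e T →
    6 * (LL M e T).card + 3 * M.card ≤ 6 * T.card + 3 * W.card ∧
    (Tb M e T).card + 3 * eQ M e T ≤ 3 * (II W M e T).card + 6 * (QQ M e T).card

/-- MAT (250 lines). Matchings in graphs with degrees 1, 2, 3: 10 nu ≥ 2 e + n.
f is a maximum matching (fixed points = unmatched vertices).
PROOF. Let k be the least number of fixed points of such an f on A; k and |A| have the same parity.
If k = 0: the degree sum is at most 3 |A| ≤ 4 |A|. If k = 1: |A| is odd and we need
5 + (degree sum) ≤ 4 |A|: true if |A| ≥ 5 (degree sum ≤ 3 |A|), for |A| = 3 the degree sum is at most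
6 (simple graph), and |A| = 1 is impossible (degree ≥ 1). Let k ≥ 2. By Tutte's theorem in Berge's
form (Pool.Agent.Work.MP_547619_kz: S_TUT, proved as p_TUT in B_TUT.lean, for finite sets of natural
numbers: transport along an injection V → ℕ) with k - 2: there are U ⊆ A and a family CC of pairwise
disjoint odd sets C ⊆ A \ U, closed (neighbours of C in A lie in C ∪ U), with |CC| > |U| + k - 2.
Let Z = A \ U \ (union of CC). |Z| ≡ k - |U| - |CC| mod 2; Z is closed too. If |CC| = |U| + k - 1 then
|Z| is odd, add it to CC (and Z becomes empty). So we may assume |CC| ≥ |U| + k.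
Let E_U be the number of edges of the graph which meet U, E_U ≤ 3 |U|; e(C), e(Z) the numbers of
edges inside. degree sum = 2 E_U + 2 sum e(C) + 2 e(Z). Let c1 be the number of the C with one
element; such an element has an edge to U (degree ≥ 1, closedness), so c1 ≤ E_U ≤ 3 |U|.
We need 5 k + (degree sum) ≤ 4 |A|; it suffices
5 (|CC| - |U|) + 2 E_U + 2 sum e(C) + 2 e(Z) ≤ 4 |U| + 4 sum |C| + 4 |Z|.
Termwise: 2 e(Z) ≤ 3 |Z|; 5 + 2 e(C) ≤ 4 |C| if |C| ≥ 5 (2 e(C) ≤ 3 |C|) and if |C| = 3 (2 e(C) ≤ 6);
5 = 4 |C| + 1 if |C| = 1; and c1 + 2 E_U ≤ 3 E_U ≤ 9 |U|. (This also covers k = 0, 1; the special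
treatment there is only needed because k - 2 is not defined. For k = 1 one can also argue directly.) -/
def Stmt_MAT : Prop :=
  ∀ (V : Type) [Fintype V] [DecidableEq V] (A : Finset V) (R : V → V → Prop) [DecidableRel R],
    (∀ x y, R x y → R y x) → (∀ x, ¬ R x x) →
    (∀ x ∈ A, 1 ≤ (A.filter (fun y => R x y)).card ∧ (A.filter (fun y => R x y)).card ≤ 3) →
    ∃ f : V → V, (∀ x ∈ A, f x ∈ A ∧ f (f x) = x ∧ (f x ≠ x → R x (f x))) ∧
      5 * (A.filter (fun x => f x = x)).card + ∑ x ∈ A, (A.filter (fun y => R x y)).card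
        ≤ 4 * A.card

/-- QT (150 lines). The edges of QQ. Uses BAS, CNT, MAT.
PROOF. Graph on A = QQ: x and y are adjacent if x ≠ y and e x ∩ e y ≠ ∅. Every v ∈ VQ lies in d2 v
≤ 2 edges of M2, all of them in QQ (a vertex of an edge of LL is in no other edge of M2), so x has at
most 3 neighbours; it has at least one, since x ∉ LL gives v ∈ e x with d2 v ≠ 1, so d2 v = 2 and the
other edge y at v is in QQ. The degree sum is 2 eQ (the pairs (x, y) of adjacent edges correspond to
the vertices v with d2 v = 2, by linearity). MAT gives f with fix fixed points,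
5 fix + 2 eQ ≤ 4 |QQ|. S = for every pair {x, f x} with f x ≠ x one common vertex of e x, e (f x), for
every fixed point x one vertex of e x: |S| ≤ (|QQ| + fix)/2, so
10 |S| + 2 eQ ≤ 5 |QQ| + 5 fix + 2 eQ ≤ 9 |QQ|. -/
def Stmt_QT : Prop :=
  ∀ (V : Type) [Fintype V] [DecidableEq V] (W M : Finset V) (e : V → Finset V) (T : Finset V),
    HY W M e → MIS W M e T →
    ∃ S : Finset V, (∀ x ∈ QQ M e T, (e x ∩ S).Nonempty) ∧
      10 * S.card + 2 * eQ M e T ≤ 9 * (QQ M e T).card

/-- SEV (120 lines). Elements of T7 touch exactly two edges of LL and are joined to all their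
vertices; multiplicities. Uses BAS.
PROOF. For t ∈ T and x ∈ LL: |e x ∩ nb t| ≤ |e x| = 3, and the edges of LL are disjoint. If t ∈ T7,
the 6 elements of nb t lie in VL, hence in the union of the edges x ∈ tch t, at most two of them with
at most 3 elements each; so there are exactly two and e x ⊆ nb t for both. For x ∈ LL and v ∈ e x we
have d2 v = 1, so v is joined (Co) to dg v - 1 ≤ 2 elements of T; hence at most 2 elements t of T with
e x ⊆ nb t and at most 3 · 2 = 6 elements t of T with x ∈ tch t. -/
def Stmt_SEV : Prop :=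
  ∀ (V : Type) [Fintype V] [DecidableEq V] (W M : Finset V) (e : V → Finset V) (T : Finset V),
    HY W M e → MIS W M e T →
    (∀ t ∈ T7 M e T, (tch M e T t).card = 2 ∧ ∀ x ∈ tch M e T t, e x ⊆ nb M e t) ∧
    ∀ x ∈ LL M e T, (T.filter (fun t => e x ⊆ nb M e t)).card ≤ 2 ∧
      (T.filter (fun t => x ∈ tch M e T t)).card ≤ 6

/-- UG (150 lines). The unit of an element of Tg. Uses BAS.
PROOF. Let x_1, x_2, x_3 be the edges at t. The two other vertices v, v' of e x_i lie in VL, in edges
l(v), l(v') of LL; l(v) ≠ l(v') by linearity (x_i is not in M2, so different from l(v); a common edge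
would have two common vertices with e x_i). The union of the three 2-element sets S_i = {l(v), l(v')}
is tch t, of at least 3 elements. Hall's condition holds (1 ≤ 2, 2 ≤ 2, 3 ≤ |union|): there are
z_i ∈ e x_i \ {t} with l(z_1), l(z_2), l(z_3) different. Z = {z_1, z_2, z_3},
F = {l(z_1), l(z_2), l(z_3)}. (Hall: Finset.all_card_le_biUnion_card_iff_exists_injective, or by
hand.) -/
def Stmt_UG : Prop :=
  ∀ (V : Type) [Fintype V] [DecidableEq V] (W M : Finset V) (e : V → Finset V) (T : Finset V),
    HY W M e → MIS W M e T → ∀ t ∈ Tg M e T,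
    ∃ F Z : Finset V, F ⊆ tch M e T t ∧ F.card = 3 ∧ Z.card ≤ 3 ∧
      (∀ x ∈ F, (e x ∩ Z).Nonempty) ∧ ∀ x ∈ M, t ∈ e x → (e x ∩ Z).Nonempty

/-- UP (200 lines). The unit of a pair of elements of T7 with exactly one common touched edge.
Uses BAS, SEV.
PROOF. tch t = {A, B}, tch s = {A, C}, B ≠ C (A, B, C ∈ LL pairwise different, disjoint edges),
nb t = e A ∪ e B, nb s = e A ∪ e C. Each of the three edges at t consists of t and two vertices of
nb t which lie in different edges of LL (linearity), so of t, one vertex of e A and one of e B, and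
every vertex of e A is in exactly one edge at t. The same for s. Let e A = {a1, a2, a3}; let b ∈ e B
be the vertex with {t, a3, b} an edge, c ∈ e C the vertex with {s, a3, c} an edge. Z = {a1, a2, b, c}
meets e A, e B, e C, the edges at t (through a1, a2, b) and at s (through a1, a2, c). -/
def Stmt_UP : Prop :=
  ∀ (V : Type) [Fintype V] [DecidableEq V] (W M : Finset V) (e : V → Finset V) (T : Finset V),
    HY W M e → MIS W M e T → ∀ t ∈ T7 M e T, ∀ s ∈ T7 M e T, s ≠ t →
    (tch M e T s ∩ tch M e T t).card = 1 →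
    (tch M e T t ∪ tch M e T s).card = 3 ∧
    ∃ Z : Finset V, Z.card ≤ 4 ∧ (∀ x ∈ tch M e T t ∪ tch M e T s, (e x ∩ Z).Nonempty) ∧
      ∀ x ∈ M, (t ∈ e x ∨ s ∈ e x) → (e x ∩ Z).Nonempty

/-- PK (300 lines). The packing of units. Uses BAS, SEV, UG, UP.
PROOF. Candidates: C0 = Tg ∪ Tp (disjoint: Tp ⊆ T7, and Tg ∩ T7 = ∅). For t ∈ Tg let F t, Z t be from
UG and X t = {t}. For t ∈ Tp choose s = pt t ∈ T7, s ≠ t, |tch s ∩ tch t| = 1, and let X t = {t, s},
F t = tch t ∪ tch s (3 elements), Z t from UP. In both cases |F t| = 3, F t ⊆ LL, X t ⊆ T, Z t meets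
e x for all x ∈ F t and for all x ∈ M with an element of X t in e x, and |Z t| ≤ 2 + |X t|.
(i) If t, s ∈ C0, t ≠ s and F t ∩ F s = ∅ then X t ∩ X s = ∅: otherwise a common element r is in Tg
(then t = r = s, because X t = {t} if t ∈ Tg and X t ⊆ T7 if t ∈ Tp) or r ∈ T7, t, s ∈ Tp and
∅ ≠ tch r ⊆ F t ∩ F s.
Choose C ⊆ C0 of maximal cardinality such that the F t, t ∈ C, are pairwise disjoint; u = |C|,
Used = union of the F t, t ∈ C, |Used| = 3 u. By maximality every t ∈ C0 has F t ∩ Used ≠ ∅.
(ii) |Tg| ≤ 18 u: t ∈ Tg has F t ⊆ tch t, so t touches one of the 3 u edges of Used, and each edge of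
LL is touched by at most 6 elements of T (SEV).
(iii) |Tp| ≤ 18 u: let Y = {r ∈ T7 : tch r ∩ Used ≠ ∅}; r ∈ Y has e x ⊆ nb r for an x ∈ Used (SEV), so
|Y| ≤ 2 · 3 u = 6 u. If t ∈ Tp then F t = tch t ∪ tch (pt t) meets Used, so t ∈ Y or pt t ∈ Y. For
r ∈ T7 there are at most 2 elements t ∈ T7, t ≠ r, with tch t ∩ tch r ≠ ∅ (for each of the two edges
x ∈ tch r at most 2 elements of T with e x ⊆ nb, one of them is r). So |Tp| ≤ |Y| + 2 |Y| ≤ 18 u.
(iv) S = (T \ union of the X t, t ∈ C) ∪ (union of the Z t, t ∈ C) ∪ {one vertex of e x for each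
x ∈ LL \ Used}. |S| ≤ |T| - sum |X t| + sum (2 + |X t|) + |LL| - 3 u = |T| + |LL| - u by (i). S meets
e x for all x ∈ M \ QQ: x ∈ LL: clear. x ∉ M2: e x contains an element t of T; if t is in no X then
t ∈ S, otherwise t ∈ X s and Z s meets e x. -/
def Stmt_PK : Prop :=
  ∀ (V : Type) [Fintype V] [DecidableEq V] (W M : Finset V) (e : V → Finset V) (T : Finset V),
    HY W M e → MIS W M e T →
    ∃ (u : ℕ) (S : Finset V), (∀ x ∈ M, x ∉ QQ M e T → (e x ∩ S).Nonempty) ∧
      S.card + u ≤ T.card + (LL M e T).card ∧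
      (Tg M e T).card ≤ 18 * u ∧ (Tp M e T).card ≤ 18 * u

/-- TSB (150 lines). The bound for Ts. Uses BAS, SEV.
PROOF. Consider the pairs (t, w) with t ∈ Ts, w ∈ nb t; there are 6 |Ts|. All w are in VL, d2 w = 1.
(a) The pairs with dg w ≤ 2: then w is joined to at most one element of T (BAS), so their number is
at most |{w ∈ W : dg w ≤ 2}| ≤ sum over W of (3 - dg w) = 3 |W| - 3 |M|.
(b) The pairs with dg w = 3: w is joined to exactly two elements t, r of T. r ∉ T7: r ≠ t touches the
edge x of LL with w ∈ e x, and x ∈ tch t, so r ∈ T7 would contradict t ∈ Ts. So r ∈ Tb ∪ Tg (every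
element of T \ T7 is in Tb or Tg). The map (t, w) -> (r, w) is injective (t is the element of T7
among the two elements of T joined to w). Its values are pairs (r, w) with r ∈ Tg, w ∈ nb r (6 for
every r) or r ∈ Tb, w ∈ nb r ∩ VL (at most 5 for every r, as nb r is not contained in VL). So their
number is at most 6 |Tg| + 5 |Tb|. -/
def Stmt_TSB : Prop :=
  ∀ (V : Type) [Fintype V] [DecidableEq V] (W M : Finset V) (e : V → Finset V) (T : Finset V),
    HY W M e → MIS W M e T →
    6 * (Ts M e T).card + 3 * M.card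
      ≤ 3 * W.card + 6 * (Tg M e T).card + 5 * (Tb M e T).card

/-- T8B (200 lines). The elements of T8 give disjoint blocks. Uses BAS, SEV.
PROOF. Let t ∈ T8, s ∈ T7, s ≠ t, tch s = tch t = {A, B}. Put Bl = {t, s} ∪ e A ∪ e B; 8 vertices
(e A, e B are disjoint and contain no element of T). Degrees: t, s have degree 3; a ∈ e A lies in A, in
an edge with t and in an edge with s (e A ⊆ nb t, nb s by SEV), these are different (an edge met by T
contains only one element of T; A is not met by T), so dg a = 3 and these are all edges at a; the same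
for e B. Closed: an edge at t is contained in {t} ∪ nb t = {t} ∪ e A ∪ e B, the same for s; an edge at
a ∈ e A is A or contains t or s. So Blk W M e Bl. Let BF be the set of these Bl, t ∈ T8.
Bl ∩ T = {t, s}. Two of the sets Bl which have a common element w are equal: {t, s} is the set of the
elements of T which are equal to w or joined to w (if w = t: T ∩ Bl; the elements r ∈ T with
e A ⊆ nb r are exactly t, s, for every A ∈ tch t; if w ∈ e A then w is joined to exactly t and s), and
{t, s} determines Bl since tch t = tch s = {A, B}. Each Bl ∈ BF comes from at most 2 elements t ∈ T8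
(t ∈ Bl ∩ T), so |T8| ≤ 2 |BF|. -/
def Stmt_T8B : Prop :=
  ∀ (V : Type) [Fintype V] [DecidableEq V] (W M : Finset V) (e : V → Finset V) (T : Finset V),
    HY W M e → MIS W M e T →
    ∃ BF : Finset (Finset V), (∀ B ∈ BF, Blk W M e B) ∧
      (∀ B ∈ BF, ∀ C ∈ BF, B ≠ C → Disjoint B C) ∧ (T8 M e T).card ≤ 2 * BF.card

/-- P2 (100 lines). Summary of part 2. Uses MIS, CNT, SLT, QT, SEV, PK, TSB, T8B.
PROOF. Take T from MIS, S1 and u from PK, S2 from QT, S = S1 ∪ S2, BF from T8B,
s = 5 |II| + (2 |QQ| - eQ) + 20 u. (eQ ≤ |VQ|, so 2 eQ ≤ 3 |QQ| by CNT, the subtraction is honest.)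
Write T, i, L, Q, q = eQ, y = 2 Q - q. Then 20 |S| ≤ 20 (T + L - u) + 18 Q - 4 q and by CNT
5 |W| + 5 |M| = 5 (T + i + 3 L + 3 Q - q) + 5 (3 T + L + Q) = 20 T + 5 i + 20 L + 20 Q - 5 q, so
5 |W| + 5 |M| - 20 |S| ≥ 5 i + 2 Q - q + 20 u = s.
Second inequality. T ≤ |Tb| + |Tg| + |T7|, |T7| ≤ |T8| + |Tp| + |Ts| (for t ∈ T7 and s ∈ T7, s ≠ t,
|tch t ∩ tch s| is 0, 1 or 2, and 2 means tch t = tch s, as both have two elements). With D =
3 |W| - 3 |M| ≥ 0 (SLT, or: sum over W of 3 - dg): 6 |Ts| ≤ D + 6 |Tg| + 5 |Tb|, so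
6 T ≤ 11 |Tb| + 12 |Tg| + 6 |Tp| + 6 |T8| + D, with |Tb| ≤ 3 i + 3 y, |Tg|, |Tp| ≤ 18 u,
|T8| ≤ 2 |BF|: 6 T ≤ 33 i + 33 y + 324 u + 12 |BF| + D. |W| = T + i + 3 L + 3 Q - q,
6 L ≤ 6 T + D, Q ≤ 2 y (as 2 q ≤ 3 Q), 3 Q - q = Q + y ≤ 3 y: 6 |W| ≤ 24 T + 6 i + 3 D + 18 y
≤ 138 i + 150 y + 1296 u + 48 |BF| + 7 D ≤ 150 s + 48 |BF| + 7 D. All of this is linear arithmetic
(omega) in the cardinalities. -/
def Stmt_P2 : Prop :=
  ∀ (V : Type) [Fintype V] [DecidableEq V] (W M : Finset V) (e : V → Finset V), HY W M e →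
    ∃ (S : Finset V) (BF : Finset (Finset V)) (s : ℕ), (∀ x ∈ M, (e x ∩ S).Nonempty) ∧
      (∀ B ∈ BF, Blk W M e B) ∧ (∀ B ∈ BF, ∀ C ∈ BF, B ≠ C → Disjoint B C) ∧
      20 * S.card + s ≤ 5 * W.card + 5 * M.card ∧
      6 * W.card + 21 * M.card ≤ 150 * s + 48 * BF.card + 21 * W.card

/-- MAIN (120 lines). The theorem. Uses C4, P1, SHR, BB, NC, P2.
PROOF. N v = G.neighborFinset v satisfies Nb (C4). T1 from P1, R = Hit N T1, W = univ \ T1,
M = univ \ R. For x ∈ M: N x ∩ T1 = ∅, so N x ⊆ W. For v ∈ W: dg M N v = |N v \ R| ≤ 3 (v ∈ N x iff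
x ∈ N v). SHR gives e, P2 gives S, BF, s, BB and NC give |BF| + 3 |M| ≤ 3 |W|. The set T1 ∪ S meets
every N x (x ∈ R: N x ∩ T1 ≠ ∅; x ∈ M: e x ⊆ N x meets S). With n = |V|, t = |T1|, r = |R| ≥ 4 t,
|W| = n - t, |M| = n - r: 20 |S| + s ≤ 10 n - 5 t - 5 r and
6 (n - t) ≤ 150 s + 48 · 3 (r - t) + 21 (r - t) = 150 s + 165 (r - t), so
n ≤ 25 s + 27.5 r - 26.5 t. Claim 500 (t + |S|) ≤ 249 n: 500 |S| + 500 t ≤
25 (10 n - 5 t - 5 r - s) + 500 t = 250 n + 375 t - 125 r - 25 s, and n ≤ 125 r + 25 s - 375 t because
27.5 r - 26.5 t ≤ 125 r - 375 t, i.e. 348.5 t ≤ 97.5 r, true as r ≥ 4 t (omega). -/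
def Stmt_MAIN : Prop :=
  ∀ (V : Type) [Fintype V] [DecidableEq V] (G : SimpleGraph V) [DecidableRel G.Adj],
      G.Connected →
      (∀ v : V, 3 ≤ G.degree v) →
      (∀ (v : V) (p : G.Walk v v), p.IsCycle → p.length ≠ 4) →
      IsEmpty (G ≃g SimpleGraph.fromRel (fun a b : Bool × ZMod 8 =>
          (a.1 = false ∧ b.1 = false ∧ b.2 = a.2 + 1) ∨
          (a.1 = false ∧ b.1 = true ∧ b.2 = a.2) ∨
          (a.1 = true ∧ b.1 = true ∧ b.2 = a.2 + 3))) →
      ∃ S : Finset V, (∀ v : V, ∃ u ∈ S, G.Adj v u) ∧
        500 * S.card ≤ 249 * Fintype.card V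

end Pool.TD
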